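import Pool.Agent.Run7.h408.EF.Stm2
import Pool.Agent.Y708.QE.Gr

/-!
# Project EF (helper408): the area of a metric on the charts of a surface
-/

set_option autoImplicit false

open Set Filter Topology MeasureTheory
open scoped Real ContDiff
open Pool.Agent.Y262.QE Pool.Agent.Y264.QR

noncomputable section

namespace Pool.Agent.Run7.h408.EF

open Pool.Agent.Y708.QE (inv_apply inv_apply' pc_ex pc_disj pc_meas)

theorem det_comp' (A B : ℂ →L[ℝ] ℂ) : (A.comp B).det = A.det * B.det :=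
  LinearMap.det_comp (A : ℂ →ₗ[ℝ] ℂ) (B : ℂ →ₗ[ℝ] ℂ)

theorem det_eq_of_norm (hLin : StLinA) {A B L : ℂ →L[ℝ] ℂ} (hA : A.det ≠ 0) (hB : B.det ≠ 0)
    (h : ∀ v, ‖B (L v)‖ = ‖A v‖) : |B.det| * |L.det| = |A.det| := by
  have hC : (B.comp L).det ≠ 0 := by
    have hk : LinearMap.ker ((B.comp L : ℂ →L[ℝ] ℂ) : ℂ →ₗ[ℝ] ℂ) = ⊥ := by
      rw [LinearMap.ker_eq_bot']
      intro v hv
      have h1 : ‖A v‖ = 0 := by
        rw [← h v]
        exact norm_eq_zero.2 hv
      rw [← inv_apply' hA v, norm_eq_zero.1 h1, map_zero]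
    have hu := (LinearMap.isUnit_iff_ker_eq_bot _).2 hk
    exact (LinearMap.isUnit_det _ hu).ne_zero
  have h1 := (hLin A (B.comp L) 1 hA hC one_pos (fun v => by
    rw [one_mul]
    exact (h v).le)).1
  have h2 := (hLin (B.comp L) A 1 hC hA one_pos (fun v => by
    rw [one_mul]
    exact (h v).ge)).1
  rw [one_pow, one_mul] at h1 h2
  rw [← abs_mul, ← det_comp']
  exact le_antisymm h1 h2

theorem ar (hLin : StLinA) (hInt : StInt) : StAr := by
  intro M _ _ _ _ μ₀ D A₀ hD A₁ hdet hcont htr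
  classical
  set ρ : M → ℝ := fun x => ∑ i, (D.pc i).indicator
    (fun x => |(A₁ i (D.φ i x)).det| / |(A₀ i (D.φ i x)).det|) x with hρ
  have hmT : ∀ i, ∀ x ∈ D.U i, D.φ i x ∈ D.T i := fun i x hx => ⟨x, hx, rfl⟩
  have hdet0 : ∀ i, ∀ z ∈ D.T i, (A₀ i z).det ≠ 0 := fun i z hz => hD.det i z hz
  have hcd : Continuous fun A : ℂ →L[ℝ] ℂ => A.det := ContinuousLinearMap.continuous_det
  have hρm : Measurable ρ := by
    rw [hρ]
    refine Finset.measurable_sum _ fun i _ => ?_
    rw [← Set.piecewise_eq_indicator]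
    have h1 : ContinuousOn (fun x => |(A₁ i (D.φ i x)).det| / |(A₀ i (D.φ i x)).det|) (D.U i) := by
      refine ContinuousOn.div ?_ ?_ fun x hx => abs_ne_zero.2 (hdet0 i _ (hmT i x hx))
      · exact continuous_abs.comp_continuousOn (hcd.comp_continuousOn
          ((hcont i).comp (hD.contφ i) (hmT i)))
      · exact continuous_abs.comp_continuousOn (hcd.comp_continuousOn
          ((hD.contA i).comp (hD.contφ i) (hmT i)))
    exact ContinuousOn.measurable_piecewise (h1.mono fun x hx => hx.1) continuousOn_const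
      (pc_meas hD i)
  have hpcx : ∀ x : M, ∃ k : Fin D.N, x ∈ D.pc k := fun x => pc_ex hD x
  have hρe : ∀ i, ∀ x ∈ D.U i, ρ x = |(A₁ i (D.φ i x)).det| / |(A₀ i (D.φ i x)).det| := by
    intro i x hx
    obtain ⟨k, hk⟩ := hpcx x
    have e1 : ρ x = |(A₁ k (D.φ k x)).det| / |(A₀ k (D.φ k x)).det| := by
      show ∑ i : Fin D.N, (D.pc i).indicator
        (fun x => |(A₁ i (D.φ i x)).det| / |(A₀ i (D.φ i x)).det|) x = _
      rw [Finset.sum_eq_single k]
      · exact Set.indicator_of_mem hk _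
      · intro j _ hj
        exact Set.indicator_of_notMem (fun h => hj (pc_disj h hk)) _
      · intro h
        exact absurd (Finset.mem_univ k) h
    have hxk : x ∈ D.U k := hk.1
    have hA := det_eq_of_norm hLin (hdet0 i _ (hmT i x hx)) (hdet0 k _ (hmT k x hxk))
      (hD.tr i k x hx hxk).2
    have hB := det_eq_of_norm hLin (hdet i _ (hmT i x hx)) (hdet k _ (hmT k x hxk))
      (htr i k x hx hxk)
    have hL : |(fderiv ℝ (fun z => D.φ k (D.ψ i z)) (D.φ i x)).det| ≠ 0 := by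
      intro h0
      have h1 : |(A₀ i (D.φ i x)).det| ≠ 0 := abs_ne_zero.2 (hdet0 i _ (hmT i x hx))
      apply h1
      rw [← hA]
      show _ * |(fderiv ℝ (fun z => D.φ k (D.ψ i z)) (D.φ i x)).det| = 0
      rw [h0, mul_zero]
    rw [e1, ← hB]
    rw [show |(A₀ i (D.φ i x)).det| = |(A₀ k (D.φ k x)).det| *
      |(fderiv ℝ (fun z => D.φ k (D.ψ i z)) (D.φ i x)).det| from hA.symm]
    rw [mul_div_mul_right _ _ hL]
  have hρ0 : ∀ x, 0 ≤ ρ x := by
    intro x
    obtain ⟨k, hk⟩ := hpcx x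
    rw [hρe k x hk.1]
    positivity
  have hmeasw : Measurable fun x => ENNReal.ofReal (ρ x) := hρm.ennreal_ofReal
  refine ⟨wm μ₀ ρ, hD.openU, hD.cover, hD.left, hD.contφ, hD.openT, hD.contψ, hdet, hcont,
    fun i j x hi hj => ⟨(hD.tr i j x hi hj).1, htr i j x hi hj⟩, ?_⟩
  intro (i : Fin D.N) B (hB : B ⊆ D.U i) hBm
  show wm μ₀ ρ B = ∫⁻ z in D.φ i '' B, ENNReal.ofReal |(A₁ i z).det|
  have hBT : D.φ i '' B ⊆ D.T i := image_mono hB
  have h1 := (hInt M μ₀ (wth D A₀) hD i).1 (B.indicator fun x => ENNReal.ofReal (ρ x))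
    (hmeasw.indicator hBm)
  have h2 : ∫⁻ x in D.U i, B.indicator (fun x => ENNReal.ofReal (ρ x)) x ∂μ₀ = wm μ₀ ρ B := by
    rw [lintegral_indicator hBm, Measure.restrict_restrict hBm, inter_eq_left.mpr hB, wm,
      withDensity_apply _ hBm]
  rw [← h2]
  refine Eq.trans h1 ?_
  have himg : ∀ z ∈ D.T i, (D.ψ i z ∈ B ↔ z ∈ D.φ i '' B) := by
    rintro z ⟨x, hx, rfl⟩
    have hl : D.ψ i (D.φ i x) = x := hD.left i x hx
    rw [hl]
    constructor
    · intro h; exact ⟨x, h, rfl⟩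
    · rintro ⟨y, hy, hxy⟩
      have hly : D.ψ i (D.φ i y) = y := hD.left i y (hB hy)
      have : D.ψ i (D.φ i y) = D.ψ i (D.φ i x) := by rw [hxy]
      rw [hly, hl] at this
      exact this ▸ hy
  have hTm : MeasurableSet (D.T i) := IsOpen.measurableSet (hD.openT i)
  have himgm : MeasurableSet (D.φ i '' B) := by
    have e : D.φ i '' B = D.T i ∩ D.ψ i ⁻¹' B := by
      ext z
      constructor
      · intro hz; exact ⟨hBT hz, (himg z (hBT hz)).mpr hz⟩
      · rintro ⟨hz, hz'⟩; exact (himg z hz).mp hz'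
    rw [e]
    have hψ : ContinuousOn (D.ψ i) (D.T i) := hD.contψ i
    have hmm : Measurable (fun z : D.T i => D.ψ i z) :=
      (continuousOn_iff_continuous_domRestrict.mp hψ).measurable
    have h3 : MeasurableSet ((fun z : D.T i => D.ψ i z) ⁻¹' B) := hmm hBm
    have h4 := hTm.subtype_image h3
    convert h4 using 1
    ext z
    simp [and_comm]
  have e1 : ∫⁻ z in D.T i, B.indicator (fun x => ENNReal.ofReal (ρ x)) (D.ψ i z) *
      ENNReal.ofReal |(A₀ i z).det| =
      ∫⁻ z in D.T i, (D.φ i '' B).indicator (fun z => ENNReal.ofReal |(A₁ i z).det|) z := by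
    apply setLIntegral_congr_fun hTm
    intro z hz
    by_cases hzB : z ∈ D.φ i '' B
    · have h5 : D.ψ i z ∈ B := (himg z hz).mpr hzB
      simp only [indicator_of_mem h5, indicator_of_mem hzB]
      obtain ⟨x, hx, rfl⟩ := hz
      have hl : D.ψ i (D.φ i x) = x := hD.left i x hx
      rw [hl, hρe i x hx, ← ENNReal.ofReal_mul (by positivity)]
      congr 1
      have h6 : |(A₀ i (D.φ i x)).det| ≠ 0 := abs_ne_zero.2 (hdet0 i _ (hmT i x hx))
      field_simp
    · have h5 : D.ψ i z ∉ B := fun h => hzB ((himg z hz).mp h)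
      simp only [indicator_of_notMem h5, indicator_of_notMem hzB, zero_mul]
  refine Eq.trans e1 ?_
  rw [lintegral_indicator himgm, Measure.restrict_restrict himgm, inter_eq_left.mpr hBT]

end Pool.Agent.Run7.h408.EF
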