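import Pool.Agent.Run7.h408.EF.Stm2
import Pool.Agent.Y708.QE.Gr

/-!
# Project EF (helper408): families of metrics in every direction
-/

set_option autoImplicit false

open Set Filter Topology MeasureTheory
open scoped Real ContDiff
open Pool.Agent.Y262.QE Pool.Agent.Y264.QR

noncomputable section

namespace Pool.Agent.Run7.h408.EF

open Pool.Agent.Y708.QE (inv_apply inv_apply')

theorem chol_apply (a b c : ℝ) (w : ℂ) : chol a b c w =
    ⟨Real.sqrt a * w.re + b / Real.sqrt a * w.im, Real.sqrt (c - b ^ 2 / a) * w.im⟩ := by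
  apply Complex.ext <;> simp [chol]

theorem chol_norm {a b c : ℝ} (ha : 0 < a) (hc : 0 ≤ c - b ^ 2 / a) (w : ℂ) :
    ‖chol a b c w‖ ^ 2 = a * w.re ^ 2 + 2 * b * (w.re * w.im) + c * w.im ^ 2 := by
  rw [chol_apply, ← Complex.normSq_eq_norm_sq, Complex.normSq_apply]
  have h1 : Real.sqrt a ≠ 0 := (Real.sqrt_pos.2 ha).ne'
  have h2 : Real.sqrt a * Real.sqrt a = a := Real.mul_self_sqrt ha.le
  have h3 : Real.sqrt (c - b ^ 2 / a) * Real.sqrt (c - b ^ 2 / a) = c - b ^ 2 / a :=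
    Real.mul_self_sqrt hc
  have e1 : (Real.sqrt a * w.re + b / Real.sqrt a * w.im) *
      (Real.sqrt a * w.re + b / Real.sqrt a * w.im) =
      (Real.sqrt a * Real.sqrt a) * w.re ^ 2 + 2 * b * (w.re * w.im) +
        b ^ 2 / (Real.sqrt a * Real.sqrt a) * w.im ^ 2 := by
    field_simp
    ring
  have e2 : Real.sqrt (c - b ^ 2 / a) * w.im * (Real.sqrt (c - b ^ 2 / a) * w.im) =
      (Real.sqrt (c - b ^ 2 / a) * Real.sqrt (c - b ^ 2 / a)) * w.im ^ 2 := by ring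
  show (Real.sqrt a * w.re + b / Real.sqrt a * w.im) *
      (Real.sqrt a * w.re + b / Real.sqrt a * w.im) +
      Real.sqrt (c - b ^ 2 / a) * w.im * (Real.sqrt (c - b ^ 2 / a) * w.im) = _
  rw [e1, e2, h2, h3]
  ring

theorem chol_one : chol 1 0 1 = ContinuousLinearMap.id ℝ ℂ := by
  ext1 w
  rw [chol_apply]
  apply Complex.ext <;> simp

theorem det_ne {A : ℂ →L[ℝ] ℂ} (h : ∀ v, A v = 0 → v = 0) : A.det ≠ 0 := by
  have hk : LinearMap.ker (A : ℂ →ₗ[ℝ] ℂ) = ⊥ := by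
    rw [LinearMap.ker_eq_bot']
    exact h
  have hu := (LinearMap.isUnit_iff_ker_eq_bot (A : ℂ →ₗ[ℝ] ℂ)).2 hk
  exact (LinearMap.isUnit_det _ hu).ne_zero

section quad

variable {A : ℂ →L[ℝ] ℂ} {h : ℂ →L[ℝ] ℂ →L[ℝ] ℝ}

/-- the quadratic form in the frame -/
theorem quad_eq (hA : A.det ≠ 0) (hs : ∀ v w, h v w = h w v) (v : ℂ) :
    h v v = h (A.inverse 1) (A.inverse 1) * (A v).re ^ 2 +
      2 * h (A.inverse 1) (A.inverse Complex.I) * ((A v).re * (A v).im) +
      h (A.inverse Complex.I) (A.inverse Complex.I) * (A v).im ^ 2 := by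
  have hv : v = (A v).re • A.inverse 1 + (A v).im • A.inverse Complex.I := by
    have e1 : A v = (A v).re • (1 : ℂ) + (A v).im • Complex.I := by
      apply Complex.ext <;> simp
    calc v = A.inverse (A v) := (inv_apply' hA v).symm
      _ = A.inverse ((A v).re • (1 : ℂ) + (A v).im • Complex.I) := by rw [← e1]
      _ = _ := by rw [map_add, map_smul, map_smul]
  conv_lhs => rw [hv]
  simp only [map_add, map_smul, ContinuousLinearMap.add_apply, ContinuousLinearMap.smul_apply,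
    smul_eq_mul]
  rw [hs (A.inverse Complex.I) (A.inverse 1)]
  ring

/-- the new coframe -/
def cf (A : ℂ →L[ℝ] ℂ) (h : ℂ →L[ℝ] ℂ →L[ℝ] ℝ) (f : ℝ) : ℂ →L[ℝ] ℂ :=
  (chol (1 + f * h (A.inverse 1) (A.inverse 1)) (f * h (A.inverse 1) (A.inverse Complex.I))
    (1 + f * h (A.inverse Complex.I) (A.inverse Complex.I))).comp A

theorem cf_pos (hA : A.det ≠ 0) (hs : ∀ v w, h v w = h w v) {K f : ℝ}
    (hb : ∀ v, |h v v| ≤ K * ‖A v‖ ^ 2) (hf : |f| * K ≤ 1 / 2) :
    0 < 1 + f * h (A.inverse 1) (A.inverse 1) ∧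
    0 < (1 + f * h (A.inverse Complex.I) (A.inverse Complex.I)) -
      (f * h (A.inverse 1) (A.inverse Complex.I)) ^ 2 /
        (1 + f * h (A.inverse 1) (A.inverse 1)) := by
  set s₁ := h (A.inverse 1) (A.inverse 1)
  set s₂ := h (A.inverse 1) (A.inverse Complex.I)
  set s₃ := h (A.inverse Complex.I) (A.inverse Complex.I)
  have key : ∀ x y : ℝ, 1 / 2 * (x ^ 2 + y ^ 2) ≤
      (1 + f * s₁) * x ^ 2 + 2 * (f * s₂) * (x * y) + (1 + f * s₃) * y ^ 2 := by
    intro x y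
    have h1 := quad_eq hA hs (A.inverse ⟨x, y⟩)
    have h2 := hb (A.inverse ⟨x, y⟩)
    rw [inv_apply hA] at h1 h2
    have h3 : ‖(⟨x, y⟩ : ℂ)‖ ^ 2 = x ^ 2 + y ^ 2 := by
      rw [← Complex.normSq_eq_norm_sq, Complex.normSq_apply]
      ring
    rw [h3, h1] at h2
    have h4 : |f * (s₁ * x ^ 2 + 2 * s₂ * (x * y) + s₃ * y ^ 2)| ≤ 1 / 2 * (x ^ 2 + y ^ 2) := by
      rw [abs_mul]
      calc |f| * |s₁ * x ^ 2 + 2 * s₂ * (x * y) + s₃ * y ^ 2| ≤ |f| * (K * (x ^ 2 + y ^ 2)) :=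
            mul_le_mul_of_nonneg_left h2 (abs_nonneg _)
        _ = |f| * K * (x ^ 2 + y ^ 2) := by ring
        _ ≤ 1 / 2 * (x ^ 2 + y ^ 2) := mul_le_mul_of_nonneg_right hf (by positivity)
    have h5 := (abs_le.1 h4).1
    linarith
  have k1 := key 1 0
  have p1 : 0 < 1 + f * s₁ := by
    norm_num at k1
    linarith
  refine ⟨p1, ?_⟩
  have k2 := key (-(f * s₂)) (1 + f * s₁)
  have k3 : 0 < (1 + f * s₁) * ((1 + f * s₃) * (1 + f * s₁) - (f * s₂) ^ 2) := by
    have : 0 < (1 + f * s₁) ^ 2 := by positivity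
    nlinarith [sq_nonneg (f * s₂)]
  have k4 : 0 < (1 + f * s₃) * (1 + f * s₁) - (f * s₂) ^ 2 := by
    by_contra hn
    push Not at hn
    nlinarith
  have k5 : (1 + f * s₃) - (f * s₂) ^ 2 / (1 + f * s₁) =
      ((1 + f * s₃) * (1 + f * s₁) - (f * s₂) ^ 2) / (1 + f * s₁) := by
    field_simp
  rw [k5]
  positivity

theorem cf_norm (hA : A.det ≠ 0) (hs : ∀ v w, h v w = h w v) {K f : ℝ}
    (hb : ∀ v, |h v v| ≤ K * ‖A v‖ ^ 2) (hf : |f| * K ≤ 1 / 2) (v : ℂ) :
    ‖cf A h f v‖ ^ 2 = ‖A v‖ ^ 2 + f * h v v := by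
  obtain ⟨p1, p2⟩ := cf_pos hA hs hb hf
  show ‖chol _ _ _ (A v)‖ ^ 2 = _
  rw [chol_norm p1 p2.le, quad_eq hA hs v, ← Complex.normSq_eq_norm_sq (A v),
    Complex.normSq_apply]
  ring

theorem cf_lower (hA : A.det ≠ 0) (hs : ∀ v w, h v w = h w v) {K f : ℝ}
    (hb : ∀ v, |h v v| ≤ K * ‖A v‖ ^ 2) (hf : |f| * K ≤ 1 / 2) (v : ℂ) :
    1 / 2 * ‖A v‖ ^ 2 ≤ ‖cf A h f v‖ ^ 2 := by
  rw [cf_norm hA hs hb hf]
  have h1 : |f * h v v| ≤ 1 / 2 * ‖A v‖ ^ 2 := by
    rw [abs_mul]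
    calc |f| * |h v v| ≤ |f| * (K * ‖A v‖ ^ 2) := mul_le_mul_of_nonneg_left (hb v) (abs_nonneg _)
      _ = |f| * K * ‖A v‖ ^ 2 := by ring
      _ ≤ 1 / 2 * ‖A v‖ ^ 2 := mul_le_mul_of_nonneg_right hf (by positivity)
  have h2 := (abs_le.1 h1).1
  linarith

theorem cf_det (hA : A.det ≠ 0) (hs : ∀ v w, h v w = h w v) {K f : ℝ}
    (hb : ∀ v, |h v v| ≤ K * ‖A v‖ ^ 2) (hf : |f| * K ≤ 1 / 2) : (cf A h f).det ≠ 0 := by
  refine det_ne fun v hv => ?_
  have h1 := cf_lower hA hs hb hf v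
  rw [hv, norm_zero] at h1
  have h2 : A v = 0 := by
    rw [← norm_eq_zero]
    nlinarith [norm_nonneg (A v)]
  rw [← inv_apply' hA v, h2, map_zero]

theorem cf_zero (A : ℂ →L[ℝ] ℂ) (h : ℂ →L[ℝ] ℂ →L[ℝ] ℝ) : cf A h 0 = A := by
  unfold cf
  simp only [zero_mul, add_zero]
  rw [chol_one]
  exact ContinuousLinearMap.id_comp A

end quad

theorem inverse_continuousOn {T : Set ℂ} {A : ℂ → ℂ →L[ℝ] ℂ} (hd : ∀ z ∈ T, (A z).det ≠ 0)
    (hc : ContinuousOn A T) : ContinuousOn (fun z => (A z).inverse) T := by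
  intro z hz
  have h1 : ContinuousAt (ContinuousLinearMap.inverse : (ℂ →L[ℝ] ℂ) → (ℂ →L[ℝ] ℂ)) (A z) := by
    have h2 := (A z).coe_toContinuousLinearEquivOfDetNeZero (hd z hz)
    rw [← h2]
    exact (contDiffAt_map_inverse (n := 0) _).continuousAt
  exact h1.comp_continuousWithinAt (hc z hz)

theorem cf_continuousOn {T : Set ℂ} {A : ℂ → ℂ →L[ℝ] ℂ} {h : ℂ → ℂ →L[ℝ] ℂ →L[ℝ] ℝ}
    (hd : ∀ z ∈ T, (A z).det ≠ 0) (hc : ContinuousOn A T) (hhc : ContinuousOn h T)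
    (hs : ∀ z v w, h z v w = h z w v) {K f : ℝ} (hb : ∀ z ∈ T, ∀ v, |h z v v| ≤ K * ‖A z v‖ ^ 2)
    (hf : |f| * K ≤ 1 / 2) : ContinuousOn (fun z => cf (A z) (h z) f) T := by
  have hi := inverse_continuousOn hd hc
  have hv : ∀ v w : ℂ, ContinuousOn (fun z => h z ((A z).inverse v) ((A z).inverse w)) T :=
    fun v w => (hhc.clm_apply (hi.clm_apply continuousOn_const)).clm_apply
      (hi.clm_apply continuousOn_const)
  have h1 : ContinuousOn (fun z => 1 + f * h z ((A z).inverse 1) ((A z).inverse 1)) T :=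
    continuousOn_const.add (continuousOn_const.mul (hv 1 1))
  have h2 : ContinuousOn (fun z => f * h z ((A z).inverse 1) ((A z).inverse Complex.I)) T :=
    continuousOn_const.mul (hv 1 Complex.I)
  have h3 : ContinuousOn
      (fun z => 1 + f * h z ((A z).inverse Complex.I) ((A z).inverse Complex.I)) T :=
    continuousOn_const.add (continuousOn_const.mul (hv Complex.I Complex.I))
  have hp : ∀ z ∈ T, 0 < 1 + f * h z ((A z).inverse 1) ((A z).inverse 1) := fun z hz =>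
    (cf_pos (hd z hz) (hs z) (hb z hz) hf).1
  unfold cf chol
  refine ContinuousOn.clm_comp ((ContinuousOn.add (ContinuousOn.add ?_ ?_) ?_)) hc
  · exact (Real.continuous_sqrt.comp_continuousOn h1).smul continuousOn_const
  · exact (h2.div (Real.continuous_sqrt.comp_continuousOn h1) fun z hz =>
      (Real.sqrt_pos.2 (hp z hz)).ne').smul continuousOn_const
  · exact (Real.continuous_sqrt.comp_continuousOn
      (h3.sub ((h2.pow 2).div h1 fun z hz => (hp z hz).ne'))).smul continuousOn_const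

theorem fx (hAr : StAr) : StFx := by
  intro M _ _ _ _ μ₀ D A₀ hD h₀ K₀ hT hK hC
  set c : ℝ := 1 / (2 * K₀ + 2) with hc
  have hc0 : 0 < c := by positivity
  have hcK : c * K₀ ≤ 1 / 2 := by
    rw [hc, one_div_mul_eq_div, div_le_iff₀ (by positivity)]
    linarith
  set f : ℝ → ℝ := fun t => c * Real.sin (t / c) with hf
  have hfb : ∀ t, |f t| * K₀ ≤ 1 / 2 := by
    intro t
    refine (mul_le_mul_of_nonneg_right ?_ hK).trans hcK
    rw [hf]
    show |c * Real.sin (t / c)| ≤ c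
    rw [abs_mul, abs_of_pos hc0]
    exact mul_le_of_le_one_right hc0.le (Real.abs_sin_le_one _)
  have hfd : ∀ t, HasDerivAt f (Real.cos (t / c)) t := by
    intro t
    have h1 : HasDerivAt (fun t : ℝ => t / c) (1 / c) t := (hasDerivAt_id t).div_const c
    have h2 := (h1.sin).const_mul c
    have e : c * (Real.cos (t / c) * (1 / c)) = Real.cos (t / c) := by
      field_simp
    rw [e] at h2
    exact h2
  have hfl : ∀ s t, |f s - f t| ≤ |s - t| := by
    intro s t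
    have h1 := Convex.norm_image_sub_le_of_norm_hasDerivWithin_le (f := f)
      (f' := fun t => Real.cos (t / c)) (C := 1) (s := univ) (x := t) (y := s)
      (fun x _ => (hfd x).hasDerivWithinAt) (fun x _ => Real.abs_cos_le_one _) convex_univ
      (mem_univ _) (mem_univ _)
    rwa [one_mul] at h1
  have hdet : ∀ i, ∀ z ∈ D.T i, (A₀ i z).det ≠ 0 := fun i z hz => hD.det i z hz
  have hcont : ∀ i, ContinuousOn (A₀ i) (D.T i) := fun i => hD.contA i
  set A : ℝ → Fin D.N → ℂ → ℂ →L[ℝ] ℂ := fun t i z => cf (A₀ i z) (h₀ i z) (f t) with hA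
  have hnorm : ∀ t i, ∀ z ∈ D.T i, ∀ v, ‖A t i z v‖ ^ 2 = ‖A₀ i z v‖ ^ 2 + f t * h₀ i z v v :=
    fun t i z hz v => cf_norm (hdet i z hz) (hT.symm i z) (hT.bdd i z hz) (hfb t) v
  have hlow : ∀ t i, ∀ z ∈ D.T i, ∀ v, 1 / 2 * ‖A₀ i z v‖ ^ 2 ≤ ‖A t i z v‖ ^ 2 :=
    fun t i z hz v => cf_lower (hdet i z hz) (hT.symm i z) (hT.bdd i z hz) (hfb t) v
  have hex : ∀ t, ∃ μ₁ : Measure M, (wth D (A t)).IsSurf μ₁ := by
    intro t
    refine hAr M μ₀ D A₀ hD (A t) ?_ ?_ ?_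
    · exact fun i z hz => cf_det (hdet i z hz) (hT.symm i z) (hT.bdd i z hz) (hfb t)
    · exact fun i => cf_continuousOn (hdet i) (hcont i) (hT.cont i) (hT.symm i) (hT.bdd i) (hfb t)
    · intro i j x hi hj v
      have h1 := hnorm t j (D.φ j x) ⟨x, hj, rfl⟩
        (fderiv ℝ (fun z => D.φ j (D.ψ i z)) (D.φ i x) v)
      have h2 := hnorm t i (D.φ i x) ⟨x, hi, rfl⟩ v
      have h3 : ‖A₀ j (D.φ j x) (fderiv ℝ (fun z => D.φ j (D.ψ i z)) (D.φ i x) v)‖ =
          ‖A₀ i (D.φ i x) v‖ := (hD.tr i j x hi hj).2 v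
      rw [hC i j x hi hj v, h3, ← h2] at h1
      exact (pow_left_inj₀ (norm_nonneg _) (norm_nonneg _) two_ne_zero).1 h1
  choose μ' hμ' using hex
  have hA0 : A 0 = A₀ := by
    funext i z
    show cf (A₀ i z) (h₀ i z) (f 0) = A₀ i z
    have : f 0 = 0 := by simp [hf]
    rw [this, cf_zero]
  classical
  refine ⟨A, fun t => if t = 0 then μ₀ else μ' t, fun t i z => Real.cos (t / c) • h₀ i z, K₀,
    ?_, hA0, if_pos rfl, ?_⟩
  · refine ⟨fun o => zero_add o, fun s t o => add_assoc s t o, hK, ?_, ?_, ?_, ?_, ?_⟩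
    · intro t
      by_cases ht : t = 0
      · subst ht
        rw [if_pos rfl, hA0]
        exact hD
      · rw [if_neg ht]
        exact hμ' t
    · intro o s i z hz v
      have h1 := hnorm (s + o) i z hz v
      have h2 := hnorm o i z hz v
      have h3 := hlow o i z hz v
      have h4 : f (s + o) * h₀ i z v v - f o * h₀ i z v v ≤ |s| * (K₀ * ‖A₀ i z v‖ ^ 2) := by
        rw [← sub_mul]
        refine (le_abs_self _).trans ?_
        rw [abs_mul]
        have h5 := hfl (s + o) o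
        rw [add_sub_cancel_right] at h5
        exact mul_le_mul h5 (hT.bdd i z hz v) (abs_nonneg _) (abs_nonneg _)
      have h6 : ‖A (s + o) i z v‖ ^ 2 ≤ (1 + 2 * K₀ * |s|) * ‖A o i z v‖ ^ 2 := by
        have h7 : K₀ * ‖A₀ i z v‖ ^ 2 ≤ 2 * K₀ * ‖A o i z v‖ ^ 2 := by nlinarith
        have h8 := mul_le_mul_of_nonneg_left h7 (abs_nonneg s)
        rw [h1]
        linarith
      have h9 : 1 + 2 * K₀ * |s| ≤ Real.exp (K₀ * |s|) ^ 2 := by
        rw [← Real.exp_nat_mul]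
        have := Real.add_one_le_exp (((2 : ℕ) : ℝ) * (K₀ * |s|))
        refine le_trans (le_of_eq ?_) this
        push_cast
        ring
      have h10 : ‖A (s + o) i z v‖ ^ 2 ≤ (Real.exp (K₀ * |s|) * ‖A o i z v‖) ^ 2 := by
        rw [mul_pow]
        exact h6.trans (mul_le_mul_of_nonneg_right h9 (by positivity))
      exact (pow_le_pow_iff_left₀ (norm_nonneg _) (by positivity) two_ne_zero).1 h10
    · intro o i z v w
      show Real.cos (o / c) • h₀ i z v w = Real.cos (o / c) • h₀ i z w v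
      rw [hT.symm]
    · intro o i
      show ContinuousOn (fun z => Real.cos (o / c) • h₀ i z) (D.T i)
      exact (hT.cont i).const_smul (Real.cos (o / c))
    · intro o ε hε
      have h1 := hfd o
      rw [hasDerivAt_iff_isLittleO_nhds_zero, Asymptotics.isLittleO_iff] at h1
      obtain ⟨δ, hδ, h2⟩ := Metric.eventually_nhds_iff.1
        (h1 (show (0 : ℝ) < ε / (2 * K₀ + 1) by positivity))
      refine ⟨δ, hδ, fun τ hτ i z hz v => ?_⟩
      have h3 := @h2 τ (by rw [dist_zero_right]; exact hτ)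
      rw [Real.norm_eq_abs, Real.norm_eq_abs, smul_eq_mul] at h3
      rw [hnorm (τ + o) i z hz v, hnorm o i z hz v]
      have e1 : ‖A₀ i z v‖ ^ 2 + f (τ + o) * h₀ i z v v - (‖A₀ i z v‖ ^ 2 + f o * h₀ i z v v) -
          τ * (Real.cos (o / c) • h₀ i z) v v =
          (f (o + τ) - f o - τ * Real.cos (o / c)) * h₀ i z v v := by
        rw [add_comm τ o]
        show _ - τ * (Real.cos (o / c) * h₀ i z v v) = _
        ring
      rw [e1, abs_mul, ← hnorm o i z hz v]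
      have h4 := hlow o i z hz v
      have h5 : |h₀ i z v v| ≤ (2 * K₀ + 1) * ‖A o i z v‖ ^ 2 := by
        have h6 := hT.bdd i z hz v
        nlinarith [sq_nonneg ‖A o i z v‖]
      calc |f (o + τ) - f o - τ * Real.cos (o / c)| * |h₀ i z v v|
          ≤ ε / (2 * K₀ + 1) * |τ| * ((2 * K₀ + 1) * ‖A o i z v‖ ^ 2) :=
            mul_le_mul h3 h5 (abs_nonneg _) (by positivity)
        _ = ε * |τ| * ‖A o i z v‖ ^ 2 := by
            field_simp
  · funext i z
    show Real.cos (0 / c) • h₀ i z = h₀ i z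
    rw [zero_div, Real.cos_zero, one_smul]

end Pool.Agent.Run7.h408.EF
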