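import Pool.Agent.Run7.h408.EF.Stm

/-!
# Project EF (helper408): statements, part three: two metrics on a compact surface are comparable
-/

set_option autoImplicit false

open Set Filter Topology MeasureTheory
open scoped Real ContDiff
open Pool.Agent.Y262.QE Pool.Agent.Y264.QR

noncomputable section

namespace Pool.Agent.Run7.h408.EF

/-- `P11`: two continuous metrics on a compact surface are comparable. Near a point `x` of `U i` the
operators `A₁ i z ∘ (A₀ i z)⁻¹` and `A₀ i z ∘ (A₁ i z)⁻¹` are bounded by continuity; finitely many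
such neighbourhoods cover `M`; pass to another chart by `IsSurf.tr` for `A₀` and `A₁`. -/
def StCp : Prop :=
  ∀ (M : Type) [MetricSpace M] [CompactSpace M] [MeasurableSpace M] [BorelSpace M]
    (μ₀ μ₁ : Measure M) (D : Data M) (A₀ A₁ : Fin D.N → ℂ → ℂ →L[ℝ] ℂ), (wth D A₀).IsSurf μ₀ →
    (wth D A₁).IsSurf μ₁ → ∃ L : ℝ, 0 < L ∧
    ∀ i, ∀ z ∈ D.T i, ∀ v, ‖A₁ i z v‖ ≤ L * ‖A₀ i z v‖ ∧ ‖A₀ i z v‖ ≤ L * ‖A₁ i z v‖

/-- `P12`: the derivative along a flow is measurable. The difference quotients at rational times are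
measurable; by continuity in `t` their limit exists (`MeasureTheory.measurableSet_exists_tendsto`) if
and only if the function is differentiable; the indicator of this set times the difference quotient at
`1 / (n + 1)` converges everywhere. -/
def StMd : Prop :=
  ∀ (Ω : Type) [MeasurableSpace Ω] (θ : ℝ → Ω → Ω), (∀ o, θ 0 o = o) → (∀ t, Measurable (θ t)) →
    ∀ F : Ω → ℝ, Measurable F → (∀ o, Continuous fun t => F (θ t o)) →
    MeasurableSet {o | DifferentiableAt ℝ (fun t => F (θ t o)) 0} ∧
    ∃ Z : Ω → ℝ, Measurable Z ∧ ∀ o, DifferentiableAt ℝ (fun t => F (θ t o)) 0 →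
      deriv (fun t => F (θ t o)) 0 = Z o

end Pool.Agent.Run7.h408.EF
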