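import Pool.Agent.Run7.h408.EF.Fl
import Pool.Agent.Run7.h408.EF.Stm3
import Pool.Agent.Y319.QR.Dr

/-!
# Project EF (helper408): quasi-invariant flows of metrics, measurability of the pairings
-/

set_option autoImplicit false

open Set Filter Topology MeasureTheory
open scoped Real ContDiff
open Pool.Agent.Y262.QE Pool.Agent.Y264.QR

noncomputable section

namespace Pool.Agent.Run7.h408.EF

theorem cont_of_lip {f : ℝ → ℝ} {K : ℝ} (h0 : ∀ t, 0 ≤ f t)
    (h : ∀ s t, f s ≤ Real.exp (K * |s - t|) * f t) : Continuous f := by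
  rw [continuous_iff_continuousAt]
  intro t
  have hu : Tendsto (fun s => Real.exp (K * |s - t|) * f t) (𝓝 t) (𝓝 (f t)) := by
    have hc : Continuous fun s => Real.exp (K * |s - t|) * f t := by fun_prop
    have h1 := hc.tendsto t
    simp only [sub_self, abs_zero, mul_zero, Real.exp_zero, one_mul] at h1
    exact h1
  have hl : Tendsto (fun s => Real.exp (-(K * |s - t|)) * f t) (𝓝 t) (𝓝 (f t)) := by
    have hc : Continuous fun s => Real.exp (-(K * |s - t|)) * f t := by fun_prop
    have h1 := hc.tendsto t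
    simp only [sub_self, abs_zero, mul_zero, neg_zero, Real.exp_zero, one_mul] at h1
    exact h1
  refine tendsto_of_tendsto_of_tendsto_of_le_of_le hl hu (fun s => ?_) fun s => h s t
  have h1 := h t s
  rw [abs_sub_comm] at h1
  show Real.exp (-(K * |s - t|)) * f t ≤ f s
  calc Real.exp (-(K * |s - t|)) * f t
      ≤ Real.exp (-(K * |s - t|)) * (Real.exp (K * |s - t|) * f s) :=
        mul_le_mul_of_nonneg_left h1 (Real.exp_pos _).le
    _ = f s := by rw [← mul_assoc, ← Real.exp_add, neg_add_cancel, Real.exp_zero, one_mul]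

section

variable {M : Type} [MetricSpace M] [CompactSpace M] [MeasurableSpace M] [BorelSpace M]
  [Nonempty M]

theorem flow2 (hQN : StQN) (hQW : StQW) (hQL : StQL) (hFld : StFld) (hCp : StCp) (hMd : StMd)
    (hHb : StHb) (hLps : StLps) (hUB : StUB) (hSpec : StSpec) (hKf : StKf)
    (hDif : StDif) (hDV : StDV) (hRA : StRA) {Ω : Type} {D : Data M} {θ : ℝ → Ω → Ω}
    {A : Ω → Fin D.N → ℂ → ℂ →L[ℝ] ℂ} {μ : Ω → Measure M} {h : Ω → Tn D} {K : ℝ}
    (hF : IsFam D θ A μ h K) (u : Ω → ℕ → M → ℝ) (lam : Ω → ℕ → ℝ) (W : Ω → ℕ → M → ℂ)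
    (hu : ∀ o, EigBasis (wth D (A o)) (μ o) (u o) (lam o))
    (hW : ∀ o j, IsGrad (wth D (A o)) (μ o) (lam o j) (u o j) (W o j))
    (X : ℕ → Ω → ℝ) (hX : ∀ j o, X j o = kpp D (A o) (μ o) (h o) (lam o j) (u o j) (W o j))
    (Y : Ω → ℝ)
    (hY : ∀ o, Y o = (∫ x, 1 / 2 * trc D (A o) (h o) x ∂(μ o)) / (μ o).real univ)
    [MeasurableSpace Ω] (P : Measure Ω) [IsProbabilityMeasure P]
    (hθ : Measurable fun p : ℝ × Ω => θ p.1 p.2) (hP : ∀ t, P.map (θ t) ≪ P)
    (hlm : ∀ j, Measurable fun o => lam o j) (harm : Measurable fun o => (μ o).real univ) :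
    (∃ J₀, ∀ j, J₀ ≤ j → AEStronglyMeasurable (X j) P) ∧ Measurable Y ∧
    (∀ χ : Ω → ℝ, Integrable χ P →
      Tendsto (fun j => ∫ o, χ o * X j o ∂P) atTop (𝓝 (∫ o, χ o * Y o ∂P))) ∧
    ∀ J : ℕ → ℕ, Tendsto J atTop atTop → ∀ᵐ o ∂P, ∀ L : ℝ,
      Tendsto (fun k => X (J k) o) atTop (𝓝 L) → L = Y o := by
  have hK := hF.pos
  have hXe : X = fun j o => kpp D (A o) (μ o) (h o) (lam o j) (u o j) (W o j) := by
    funext j o
    exact hX j o
  have hYe : Y = fun o => (∫ x, 1 / 2 * trc D (A o) (h o) x ∂(μ o)) / (μ o).real univ := by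
    funext o
    exact hY o
  have hone := fun o => one hHb hLps hUB hSpec hKf hDif hDV hRA hF u lam W hu hW o
  have hsp := fun o => hSpec M (μ o) (wth D (A o)) (hF.surf o) inferInstance (u o) (lam o) (hu o)
    (W o) (hW o)
  have hlam0 : ∀ o l, 0 ≤ lam o l := by
    intro o l
    obtain ⟨-, -, a, b, e, hFm, hE, -⟩ := hsp o
    have h2 := hFm.na (e l)
    rwa [hE.eig, hE.orth, if_pos rfl, mul_one] at h2
  have hθt : ∀ t, Measurable (θ t) := fun t => hθ.comp (measurable_const.prodMk measurable_id)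
  -- positivity
  have hcmp : ∀ o o' j, 0 < lam o j → 0 < lam o' j := by
    intro o o' j hj
    obtain ⟨L, hL, hLc⟩ := hCp M (μ o) (μ o') D (A o) (A o') (hF.surf o) (hF.surf o')
    have h1 := lip_eig hLps hUB hSpec D (A o') (A o) (μ o') (μ o) (hF.surf o') (hF.surf o) L hL
      (fun i z hz v => ⟨(hLc i z hz v).2, (hLc i z hz v).1⟩) (u o') (u o) (lam o') (lam o) (hu o')
      (hu o) (W o') (hW o') j
    rcases (hlam0 o' j).eq_or_lt with h2 | h2
    · rw [← h2, mul_zero] at h1
      exact absurd hj (not_lt.2 h1)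
    · exact h2
  obtain ⟨o₀⟩ : Nonempty Ω := by
    by_contra hne
    rw [not_nonempty_iff] at hne
    have h1 : P univ = 1 := measure_univ
    rw [Set.eq_empty_of_isEmpty (univ : Set Ω), measure_empty] at h1
    exact zero_ne_one h1
  obtain ⟨J₀, hJ₀⟩ : ∃ J₀ : ℕ, ∀ j, J₀ ≤ j → ∀ o, 0 < lam o j := by
    have h1 := (hsp o₀).2.1
    have h2 : (0 : ℝ) < 4 * π / (μ o₀).real univ := div_pos (by positivity) (hsp o₀).1
    obtain ⟨J, hJ⟩ := eventually_atTop.1 (h1.eventually (lt_mem_nhds h2))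
    refine ⟨J, fun j hj o => hcmp o₀ o j ?_⟩
    have h3 := hJ j hj
    by_contra hn
    push Not at hn
    have h4 : lam o₀ j = 0 := le_antisymm hn (hlam0 _ _)
    rw [h4, zero_div] at h3
    exact lt_irrefl _ h3
  -- continuity along the orbits
  have hlipE : ∀ (o : Ω) (j : ℕ) (s t : ℝ),
      lam (θ s o) j ≤ Real.exp (6 * K * |s - t|) * lam (θ t o) j := by
    intro o j s t
    have hst : θ s o = θ (s - t) (θ t o) := by rw [← hF.add, sub_add_cancel]
    have hb : ∀ i, ∀ z ∈ D.T i, ∀ v,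
        ‖A (θ (s - t) (θ t o)) i z v‖ ≤ Real.exp (K * |s - t|) * ‖A (θ t o) i z v‖ ∧
        ‖A (θ t o) i z v‖ ≤ Real.exp (K * |s - t|) * ‖A (θ (s - t) (θ t o)) i z v‖ := by
      intro l z hz v
      refine ⟨hF.lip (θ t o) (s - t) l z hz v, ?_⟩
      have h2 := hF.lip (θ (s - t) (θ t o)) (-(s - t)) l z hz v
      rw [← hF.add, neg_add_cancel, hF.zero, abs_neg] at h2
      exact h2
    have h2 := lip_eig hLps hUB hSpec D (A (θ t o)) (A (θ (s - t) (θ t o))) (μ (θ t o))
      (μ (θ (s - t) (θ t o))) (hF.surf _) (hF.surf _) (Real.exp (K * |s - t|)) (Real.exp_pos _)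
      hb (u (θ t o)) (u (θ (s - t) (θ t o))) (lam (θ t o))
      (lam (θ (s - t) (θ t o))) (hu _) (hu _) (W (θ t o)) (hW _) j
    rw [← hst, ← Real.exp_nat_mul] at h2
    refine h2.trans (le_of_eq ?_)
    congr 2
    push_cast
    ring
  have hcE : ∀ j o, Continuous fun t => lam (θ t o) j := fun j o =>
    cont_of_lip (K := 6 * K) (fun t => hlam0 _ _) fun s t => hlipE o j s t
  -- the measurable set and the measurable derivatives
  choose hGm Z hZm hZ using fun j => hMd Ω θ hF.zero hθt (fun o => lam o j) (hlm j) (hcE j)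
  set G : Set Ω := ⋂ j, {o | DifferentiableAt ℝ (fun t => lam (θ t o) j) 0} with hG
  have hGmeas : MeasurableSet G := MeasurableSet.iInter hGm
  have hGae : ∀ o, ∀ᵐ t : ℝ, θ t o ∈ G := by
    intro o
    filter_upwards [(hone o).1] with t ht
    rw [hG, mem_iInter]
    intro j
    show DifferentiableAt ℝ (fun s => lam (θ s (θ t o)) j) 0
    have e : (fun s => lam (θ s (θ t o)) j) = fun s => lam (θ (s + t) o) j := by
      funext s
      rw [hF.add]
    rw [e]
    have h2 : HasDerivAt (fun s => lam (θ s o) j) (-(X j (θ t o) * lam (θ t o) j)) (0 + t) := by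
      rw [zero_add, hX]
      exact ht j
    exact (h2.comp_add_const 0 t).differentiableAt
  have hGd : ∀ o ∈ G, ∀ j, HasDerivAt (fun s => lam (θ s o) j) (-(X j o * lam o j)) 0 := by
    intro o ho j
    have hd : ∀ l, DifferentiableAt ℝ (fun s => lam (θ s o) l) 0 := fun l => mem_iInter.1 ho l
    classical
    have hex : ∃ i, lam o i = lam o j := ⟨j, rfl⟩
    set i := Nat.find hex with hi
    have hij : lam o i = lam o j := Nat.find_spec hex
    have hile : i ≤ j := Nat.find_min' hex rfl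
    have hlt : ∀ l, l < i → lam o l < lam o i := by
      intro l hl
      have h1 := Nat.find_min hex hl
      have h2 : lam o l ≤ lam o i := (hu o).mono hl.le
      exact lt_of_le_of_ne h2 fun h3 => h1 (h3.trans hij)
    have h1 : HasDerivAt (fun s => lam (θ s o) i) (-(X j o * lam o j)) 0 := by
      refine Pool.Agent.Y319.QR.der_of_upper _ (hd i) fun ε hε => ?_
      obtain ⟨δ, hδ, h2⟩ := der_eig hHb hLps hUB hSpec hKf hDif hDV hF u lam W hu hW o i j hij hlt
        ε hε
      refine ⟨δ, hδ, fun τ hτ => (h2 τ hτ).trans (le_of_eq ?_)⟩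
      rw [← hX, hF.zero, hij]
      ring
    refine Pool.Agent.Y319.QR.der_of_touch h1 (hd j) (fun t => (hu _).mono hile) ?_
    show lam (θ 0 o) i = lam (θ 0 o) j
    rw [hF.zero, hij]
  -- the measurable versions
  set X' : ℕ → Ω → ℝ := fun j => G.indicator fun o => -(Z j o / lam o j) with hX'
  have hX'm : ∀ j, Measurable (X' j) := fun j =>
    ((hZm j).div (hlm j)).neg.indicator hGmeas
  have hX'e : ∀ j, J₀ ≤ j → ∀ o ∈ G, X' j o = X j o := by
    intro j hj o ho
    have h1 := hGd o ho j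
    have h2 := hZ j o h1.differentiableAt
    rw [h1.deriv] at h2
    have h3 := (hJ₀ j hj o).ne'
    show G.indicator (fun o => -(Z j o / lam o j)) o = X j o
    rw [indicator_of_mem ho, ← h2]
    field_simp
  have hXb : ∀ j o, |X j o| ≤ 6 * K := by
    intro j o
    rw [hX]
    refine (kpp_le hFld hSpec (hF.surf o) (by positivity) (isTn_of_fam hHb hF o) (u o) (lam o)
      (W o) (hu o) (hW o) j).trans (le_of_eq (by ring))
  have hX'b : ∀ j, J₀ ≤ j → ∀ o, |X' j o| ≤ 6 * K := by
    intro j hj o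
    by_cases ho : o ∈ G
    · rw [hX'e j hj o ho]
      exact hXb j o
    · show |G.indicator (fun o => -(Z j o / lam o j)) o| ≤ 6 * K
      rw [indicator_of_notMem ho, abs_zero]
      positivity
  have hYb : ∀ o, |Y o| ≤ 6 * K := by
    intro o
    obtain ⟨hm, -⟩ := hSpec M (μ o) (wth D (A o)) (hF.surf o) inferInstance (u o) (lam o) (hu o)
      (W o) (hW o)
    obtain ⟨-, -, -, f4, -, -, -⟩ := hFld M (μ o) D (A o) (hF.surf o) (h o) (2 * K)
      (isTn_of_fam hHb hF o)
    haveI : IsFiniteMeasure (μ o) := by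
      refine ⟨lt_of_le_of_ne le_top fun h' => ?_⟩
      rw [measureReal_def, h'] at hm
      simp at hm
    rw [hY, abs_div, abs_of_pos hm, div_le_iff₀ hm]
    have h1 := norm_integral_le_of_norm_le (μ := μ o)
      (f := fun x => 1 / 2 * trc D (A o) (h o) x) (g := fun _ => 2 * K) (integrable_const _)
      (Eventually.of_forall fun x => by
        rw [Real.norm_eq_abs, abs_mul, abs_of_pos (by norm_num : (0 : ℝ) < 1 / 2)]
        have := f4 x
        linarith)
    rw [integral_const, smul_eq_mul] at h1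
    refine h1.trans ?_
    have : 0 ≤ (μ o).real univ * K := by positivity
    nlinarith
  -- the area
  have hYd : ∀ o, ∀ t : ℝ,
      HasDerivAt (fun s => Real.log ((μ (θ s o)).real univ)) (Y (θ t o)) t := by
    intro o t
    rw [hYe]
    exact (hone o).2.1 t
  have hYm : Measurable Y := by
    obtain ⟨-, Z', hZ'm, hZ'⟩ := hMd Ω θ hF.zero hθt (fun o => Real.log ((μ o).real univ))
      harm.log fun o => continuous_iff_continuousAt.2 fun t => (hYd o t).continuousAt
    have : Y = Z' := by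
      funext o
      have h1 := hYd o 0
      rw [hF.zero] at h1
      rw [← hZ' o h1.differentiableAt, h1.deriv]
    rw [this]
    exact hZ'm
  -- the exceptional set
  have hPG : ∀ᵐ o ∂P, o ∈ G := by
    have h1 := hQN Ω P θ ⟨hθ, hF.zero, hF.add, hP⟩ Gᶜ hGmeas.compl fun o => by
      filter_upwards [hGae o] with t ht
      exact fun h2 => h2 ht
    exact mem_ae_iff.2 h1
  have hae : ∀ j, J₀ ≤ j → X' j =ᵐ[P] X j := by
    intro j hj
    filter_upwards [hPG] with o ho
    exact hX'e j hj o ho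
  have hshift := hQW Ω P θ ⟨hθ, hF.zero, hF.add, hP⟩ (fun j => X' (j + J₀)) Y (6 * K)
    (fun j => hX'm _) hYm (fun j o => hX'b _ (by omega) o) hYb (fun o χ hχ => by
      have h1 := (hone o).2.2.1 χ hχ
      rw [← hYe] at h1
      have h2 := (tendsto_add_atTop_iff_nat J₀).2 h1
      refine h2.congr fun j => ?_
      refine integral_congr_ae ?_
      filter_upwards [hGae o] with t ht
      have h3 := hX'e (j + J₀) (by omega) (θ t o) ht
      show χ t * kpp D (A (θ t o)) (μ (θ t o)) (h (θ t o)) (lam (θ t o) (j + J₀))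
        (u (θ t o) (j + J₀)) (W (θ t o) (j + J₀)) = χ t * X' (j + J₀) (θ t o)
      rw [h3, hX])
  have hweak : ∀ χ : Ω → ℝ, Integrable χ P →
      Tendsto (fun j => ∫ o, χ o * X j o ∂P) atTop (𝓝 (∫ o, χ o * Y o ∂P)) := by
    intro χ hχ
    refine (tendsto_add_atTop_iff_nat J₀).1 ((hshift χ hχ).congr fun j => ?_)
    refine integral_congr_ae ?_
    filter_upwards [hae (j + J₀) (by omega)] with o ho
    rw [ho]
  refine ⟨⟨J₀, fun j hj => (hX'm j).aestronglyMeasurable.congr (hae j hj)⟩, hYm, hweak, ?_⟩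
  intro J hJ
  have hql := hQL Ω P (fun j => X (j + J₀)) Y (6 * K)
    (fun j => (hX'm _).aestronglyMeasurable.congr (hae _ (by omega)))
    hYm.aestronglyMeasurable (fun j => Eventually.of_forall (hXb _)) (Eventually.of_forall hYb)
    (fun χ hχ => (tendsto_add_atTop_iff_nat J₀).2 (hweak χ hχ)) (fun k => J k - J₀)
    (tendsto_sub_atTop_nat J₀ |>.comp hJ)
  filter_upwards [hql] with o ho L hL
  refine ho L (hL.congr' ?_)
  filter_upwards [hJ.eventually_ge_atTop J₀] with k hk
  show X (J k) o = X (J k - J₀ + J₀) o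
  rw [Nat.sub_add_cancel hk]

end

end Pool.Agent.Run7.h408.EF
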