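import Pool.Agent.Run7.h408.EF.Stm
import Pool.Agent.Y378.QR.Wl

/-!
# Project EF (helper408): the upper bound for the eigenvalues
-/

set_option autoImplicit false

open Set Filter Topology MeasureTheory
open scoped Real ContDiff
open Pool.Agent.Y262.QE Pool.Agent.Y264.QR

noncomputable section

namespace Pool.Agent.Run7.h408.EF

section gram

variable {H : Type} [NormedAddCommGroup H] [InnerProductSpace ℝ H]

theorem gram_sum (a : H →L[ℝ] H →L[ℝ] ℝ) {n : ℕ} (c : Fin n → ℝ) (f : Fin n → H) :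
    a (∑ p, c p • f p) (∑ p, c p • f p) = ∑ p, ∑ q, c p * c q * a (f p) (f q) := by
  simp only [map_sum, map_smul, ContinuousLinearMap.sum_apply, ContinuousLinearMap.smul_apply,
    smul_eq_mul, Finset.mul_sum]
  rw [Finset.sum_comm]
  refine Finset.sum_congr rfl fun p _ => Finset.sum_congr rfl fun q _ => ?_
  ring

/-- the form of nearby vectors -/
theorem gram_close (a : H →L[ℝ] H →L[ℝ] ℝ) {n : ℕ} (f : Fin n → H) (w : ℕ → Fin n → H)
    (hw : ∀ p, Tendsto (fun k => w k p) atTop (𝓝 (f p))) (η : ℝ) (hη : 0 < η) :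
    ∀ᶠ k in atTop, ∀ c : Fin n → ℝ,
      |a (∑ p, c p • w k p) (∑ p, c p • w k p) - a (∑ p, c p • f p) (∑ p, c p • f p)| ≤
        η * ∑ p, (c p) ^ 2 := by
  have h1 : Tendsto (fun k => ∑ p, ∑ q, |a (w k p) (w k q) - a (f p) (f q)|) atTop (𝓝 0) := by
    have h2 : Tendsto (fun k => ∑ p, ∑ q, |a (w k p) (w k q) - a (f p) (f q)|) atTop
        (𝓝 (∑ p : Fin n, ∑ q : Fin n, |a (f p) (f q) - a (f p) (f q)|)) := by
      refine tendsto_finset_sum _ fun p _ => tendsto_finset_sum _ fun q _ => ?_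
      have h3 : Continuous fun z : H × H => |a z.1 z.2 - a (f p) (f q)| := by fun_prop
      exact (h3.tendsto (f p, f q)).comp ((hw p).prodMk_nhds (hw q))
    simpa only [sub_self, abs_zero, Finset.sum_const_zero] using h2
  filter_upwards [h1.eventually (gt_mem_nhds hη)] with k hk c
  rw [gram_sum, gram_sum, ← Finset.sum_sub_distrib]
  simp only [← Finset.sum_sub_distrib, ← mul_sub]
  set S := ∑ p, (c p) ^ 2 with hS
  have hS0 : 0 ≤ S := Finset.sum_nonneg fun p _ => sq_nonneg _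
  have hcc : ∀ p q, |c p * c q| ≤ S := by
    intro p q
    have hp : (c p) ^ 2 ≤ S :=
      Finset.single_le_sum (f := fun p => (c p) ^ 2) (fun i _ => sq_nonneg _) (Finset.mem_univ p)
    have hq : (c q) ^ 2 ≤ S :=
      Finset.single_le_sum (f := fun p => (c p) ^ 2) (fun i _ => sq_nonneg _) (Finset.mem_univ q)
    rw [abs_mul]
    nlinarith [sq_nonneg (|c p| - |c q|), sq_abs (c p), sq_abs (c q)]
  calc |∑ p, ∑ q, c p * c q * (a (w k p) (w k q) - a (f p) (f q))|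
      ≤ ∑ p, ∑ q, |c p * c q * (a (w k p) (w k q) - a (f p) (f q))| :=
        (Finset.abs_sum_le_sum_abs _ _).trans
          (Finset.sum_le_sum fun p _ => Finset.abs_sum_le_sum_abs _ _)
    _ ≤ ∑ p, ∑ q, S * |a (w k p) (w k q) - a (f p) (f q)| := by
        refine Finset.sum_le_sum fun p _ => Finset.sum_le_sum fun q _ => ?_
        rw [abs_mul]
        exact mul_le_mul_of_nonneg_right (hcc p q) (abs_nonneg _)
    _ = S * ∑ p, ∑ q, |a (w k p) (w k q) - a (f p) (f q)| := by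
        simp only [Finset.mul_sum]
    _ ≤ S * η := mul_le_mul_of_nonneg_left hk.le hS0
    _ = η * S := mul_comm _ _

end gram

/-- linear combinations of `C¹` functions -/
theorem c1_sum (hGr : StGr) {M : Type} [MetricSpace M] [CompactSpace M] [MeasurableSpace M]
    [BorelSpace M] (μ : Measure M) (D : Data M) (hD : D.IsSurf μ) {n : ℕ} (F : Fin n → M → ℝ)
    (hF : ∀ p, D.C1 (F p)) (c : Fin n → ℝ) :
    D.C1 (fun x => ∑ p, c p * F p x) ∧
      ∀ x, D.gr (fun x => ∑ p, c p * F p x) x = ∑ p, c p • D.gr (F p) x := by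
  classical
  obtain ⟨-, -, g3⟩ := hGr M μ D hD
  have key : ∀ s : Finset (Fin n), D.C1 (fun x => ∑ p ∈ s, c p * F p x) ∧
      ∀ x, D.gr (fun x => ∑ p ∈ s, c p * F p x) x = ∑ p ∈ s, c p • D.gr (F p) x := by
    intro s
    induction s using Finset.induction_on with
    | empty =>
      have h0 : D.C1 (fun _ : M => (0 : ℝ)) := fun i => contDiffOn_const
      simp only [Finset.sum_empty]
      refine ⟨h0, fun x => ?_⟩
      have h1 := (g3 _ _ h0 h0 0 0).2 x
      simp only [mul_zero, add_zero, zero_smul] at h1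
      exact h1
    | insert k s hk ih =>
      simp only [Finset.sum_insert hk]
      have h1 := g3 (F k) (fun x => ∑ p ∈ s, c p * F p x) (hF k) ih.1 (c k) 1
      simp only [one_mul, one_smul] at h1
      refine ⟨h1.1, fun x => ?_⟩
      rw [h1.2 x, ih.2 x]
  exact key Finset.univ

theorem ub (hGr : StGr) (hMM : StMM) (hDen : StDenF) (hGx : StGx) (hSpec : StSpec) : StUB := by
  intro M _ _ _ _ μ₀ μ₁ D₀ D₁ h0 h1 hM hC1 u lam hu a b ha hb hcmp j f Λ η hΛ hη hf
  choose W hW using fun j => hGx M μ₁ D₁ h1 (lam j) (u j) (hu.eig j)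
  obtain ⟨-, -, a₁, b₁, e, hFm, hE, ha₁, hb₁, -⟩ := hSpec M μ₁ D₁ h1 hM u lam hu W hW
  rw [← hMM (HF D₁ μ₁) a₁ b₁ hFm e lam hE j]
  -- approximation
  obtain ⟨-, hden0⟩ := hDen M μ₀ D₀ h0
  obtain ⟨hden1, -⟩ := hDen M μ₁ D₁ h1
  choose F v hF hv using fun p => hden0 (f p).1 (f p).2
  let w : ℕ → Fin (j + 1) → HF D₀ μ₀ := fun k p => ⟨v p k, (hF p k).2.1⟩
  have hw : ∀ p, Tendsto (fun k => w k p) atTop (𝓝 (f p)) := by
    intro p
    rw [tendsto_subtype_rng]
    exact hv p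
  obtain ⟨k, hk1, hk2, hk3⟩ := ((gram_close a f w hw (η / 4) (by positivity)).and
    ((gram_close b f w hw (η / 2) (by positivity)).and
      (gram_close b f w hw (η / (4 * (Λ + 1))) (by positivity)))).exists
  have hcw : ∀ c : Fin (j + 1) → ℝ,
      a (∑ p, c p • w k p) (∑ p, c p • w k p) ≤ Λ * b (∑ p, c p • w k p) (∑ p, c p • w k p) ∧
      η / 2 * ∑ p, (c p) ^ 2 ≤ b (∑ p, c p • w k p) (∑ p, c p • w k p) := by
    intro c
    have hS0 : 0 ≤ ∑ p, (c p) ^ 2 := Finset.sum_nonneg fun p _ => sq_nonneg _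
    obtain ⟨q1, q2⟩ := hf c
    have r1 := (abs_le.1 (hk1 c)).2
    have r2 := (abs_le.1 (hk2 c)).1
    have r3 := (abs_le.1 (hk3 c)).1
    have r4 : Λ * (η / (4 * (Λ + 1)) * ∑ p, (c p) ^ 2) ≤ η / 4 * ∑ p, (c p) ^ 2 := by
      have : Λ * (η / (4 * (Λ + 1))) ≤ η / 4 := by
        rw [mul_div_assoc', div_le_div_iff₀ (by positivity) (by norm_num)]
        nlinarith
      calc Λ * (η / (4 * (Λ + 1)) * ∑ p, (c p) ^ 2) = Λ * (η / (4 * (Λ + 1))) * ∑ p, (c p) ^ 2 := by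
            ring
        _ ≤ η / 4 * ∑ p, (c p) ^ 2 := mul_le_mul_of_nonneg_right this hS0
    have r5 : Λ * b (∑ p, c p • f p) (∑ p, c p • f p) ≤
        Λ * b (∑ p, c p • w k p) (∑ p, c p • w k p) +
          Λ * (η / (4 * (Λ + 1)) * ∑ p, (c p) ^ 2) := by
      rw [← mul_add]
      refine mul_le_mul_of_nonneg_left ?_ hΛ
      linarith
    have r6 : 0 ≤ η * ∑ p, (c p) ^ 2 := by positivity
    constructor
    · linarith
    · linarith
  -- the functions
  have hFC : ∀ p, D₀.C1 (F p k) := fun p => (hF p k).1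
  have hsum0 := fun c => c1_sum hGr μ₀ D₀ h0 (fun p => F p k) hFC c
  have hsum1 := fun c => c1_sum hGr μ₁ D₁ h1 (fun p => F p k) (fun p => hC1 _ (hFC p)) c
  have hmain : ∀ c : Fin (j + 1) → ℝ,
      ∫ x, ‖D₁.gr (fun x => ∑ p, c p * F p k x) x‖ ^ 2 ∂μ₁ ≤
        Λ * ∫ x, (∑ p, c p * F p k x) ^ 2 ∂μ₁ ∧
      η / 2 * ∑ p, (c p) ^ 2 ≤ ∫ x, (∑ p, c p * F p k x) ^ 2 ∂μ₁ := by
    intro c
    set V : HF D₀ μ₀ := ∑ p, c p • w k p with hV
    have hV1 : V.1 = ∑ p, c p • v p k := by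
      rw [hV, AddSubmonoidClass.coe_finset_sum]
      rfl
    have hfst : (V.1.fst : M → ℝ) =ᵐ[μ₀] fun x => ∑ p, c p * F p k x := by
      have e1 : V.1.fst = ∑ p, c p • (v p k).fst := by
        rw [hV1]
        change (WithLp.fstₗ (𝕜 := ℝ) 2 (Lp ℝ 2 μ₀) (Lp ℂ 2 μ₀)) (∑ p, c p • v p k) = _
        rw [map_sum]
        refine Finset.sum_congr rfl fun p _ => ?_
        rw [map_smul]
        rfl
      rw [e1]
      have h2 := Pool.Agent.Y378.QR.coe_sum c (fun p => (v p k).fst) (fun p => F p k)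
        (fun p => (hF p k).2.2.1) Finset.univ
      refine h2.trans (Eventually.of_forall fun x => ?_)
      simp only [smul_eq_mul]
    have hsnd : (V.1.snd : M → ℂ) =ᵐ[μ₀] D₀.gr (fun x => ∑ p, c p * F p k x) := by
      have e1 : V.1.snd = ∑ p, c p • (v p k).snd := by
        rw [hV1]
        change (WithLp.sndₗ (𝕜 := ℝ) 2 (Lp ℝ 2 μ₀) (Lp ℂ 2 μ₀)) (∑ p, c p • v p k) = _
        rw [map_sum]
        refine Finset.sum_congr rfl fun p _ => ?_
        rw [map_smul]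
        rfl
      rw [e1]
      have h2 := Pool.Agent.Y378.QR.coe_sum c (fun p => (v p k).snd) (fun p => D₀.gr (F p k))
        (fun p => (hF p k).2.2.2) Finset.univ
      refine h2.trans (Eventually.of_forall fun x => ?_)
      exact ((hsum0 c).2 x).symm
    obtain ⟨c1, c2⟩ := hcmp _ (hsum0 c).1 V hfst hsnd
    obtain ⟨d1, d2⟩ := hcw c
    refine ⟨c1.trans (d1.trans (mul_le_mul_of_nonneg_left c2 hΛ)), d2.trans c2⟩
  -- the vectors for the second surface
  choose v₁ hm₁ hv₁ hv₂ using fun p => hden1 (F p k) (hC1 _ (hFC p))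
  let w₁ : Fin (j + 1) → HF D₁ μ₁ := fun p => ⟨v₁ p, hm₁ p⟩
  have hV1 : ∀ c : Fin (j + 1) → ℝ, (∑ p, c p • w₁ p : HF D₁ μ₁).1 = ∑ p, c p • v₁ p := by
    intro c
    rw [AddSubmonoidClass.coe_finset_sum]
    rfl
  have hfst : ∀ c : Fin (j + 1) → ℝ, ((∑ p, c p • w₁ p : HF D₁ μ₁).1.fst : M → ℝ) =ᵐ[μ₁]
      fun x => ∑ p, c p * F p k x := by
    intro c
    have e1 : (∑ p, c p • w₁ p : HF D₁ μ₁).1.fst = ∑ p, c p • (v₁ p).fst := by
      rw [hV1]
      change (WithLp.fstₗ (𝕜 := ℝ) 2 (Lp ℝ 2 μ₁) (Lp ℂ 2 μ₁)) (∑ p, c p • v₁ p) = _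
      rw [map_sum]
      refine Finset.sum_congr rfl fun p _ => ?_
      rw [map_smul]
      rfl
    rw [e1]
    have h2 := Pool.Agent.Y378.QR.coe_sum c (fun p => (v₁ p).fst) (fun p => F p k) hv₁ Finset.univ
    refine h2.trans (Eventually.of_forall fun x => ?_)
    simp only [smul_eq_mul]
  have hsnd : ∀ c : Fin (j + 1) → ℝ, ((∑ p, c p • w₁ p : HF D₁ μ₁).1.snd : M → ℂ) =ᵐ[μ₁]
      D₁.gr (fun x => ∑ p, c p * F p k x) := by
    intro c
    have e1 : (∑ p, c p • w₁ p : HF D₁ μ₁).1.snd = ∑ p, c p • (v₁ p).snd := by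
      rw [hV1]
      change (WithLp.sndₗ (𝕜 := ℝ) 2 (Lp ℝ 2 μ₁) (Lp ℂ 2 μ₁)) (∑ p, c p • v₁ p) = _
      rw [map_sum]
      refine Finset.sum_congr rfl fun p _ => ?_
      rw [map_smul]
      rfl
    rw [e1]
    have h2 := Pool.Agent.Y378.QR.coe_sum c (fun p => (v₁ p).snd) (fun p => D₁.gr (F p k)) hv₂
      Finset.univ
    refine h2.trans (Eventually.of_forall fun x => ?_)
    exact ((hsum1 c).2 x).symm
  refine Pool.Agent.Y378.QR.ev_upper w₁ (δ := η / 2) (by positivity) hΛ ?_ ?_ le_rfl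
  · intro c
    rw [hb₁]
    refine ((hmain c).2).trans (le_of_eq (integral_congr_ae ?_))
    filter_upwards [hfst c] with x hx
    rw [hx]
  · intro c
    have e1 : a₁ (∑ p, c p • w₁ p) (∑ p, c p • w₁ p) =
        ∫ x, ‖D₁.gr (fun x => ∑ p, c p * F p k x) x‖ ^ 2 ∂μ₁ := by
      rw [ha₁]
      refine integral_congr_ae ?_
      filter_upwards [hsnd c] with x hx
      rw [hx]
    have e2 : b₁ (∑ p, c p • w₁ p) (∑ p, c p • w₁ p) = ∫ x, (∑ p, c p * F p k x) ^ 2 ∂μ₁ := by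
      rw [hb₁]
      refine integral_congr_ae ?_
      filter_upwards [hfst c] with x hx
      rw [hx]
    rw [e1, e2]
    exact (hmain c).1

end Pool.Agent.Run7.h408.EF
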