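import Pool.Agent.Run7.h408.EF.Ex
import Pool.Agent.Run7.h408.EF.Fx
import Pool.Agent.Run7.h408.EF.Ms
import Pool.Agent.Y264.QR.All
import Pool.Agent.Run7.h579.EF.StHb
import Pool.Agent.Run7.h586.EF.Cmp
import Pool.Agent.Run7.h586.EF.Fld
import Pool.Agent.Run7.h354.EF.StRA
import Pool.Agent.Run7.h354.EF.StSpec
import Pool.Agent.Run7.h722.EF.StLps
import Pool.Agent.Run7.h888.EF.LIN
import Pool.Agent.Run7.h437.EF.StDV
import Pool.Agent.Run7.h437.EF.StDif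
import Pool.Agent.Run7.h305.EF.StGx
import Pool.Agent.Run7.h722.EF.StKf
import Pool.Agent.Run7.h408.EF.UB
import Pool.Agent.Run7.h408.EF.Ar
import Pool.Agent.Run7.h270.EF.StCp
import Pool.Agent.Run7.h270.EF.StMd
import Pool.Agent.Y469.QE.Mul

/-!
# Project EF: assembly
-/

set_option autoImplicit false

open Set Filter Topology MeasureTheory

noncomputable section

namespace Pool.Agent.Run7.h408.EF

open Pool.Agent.Y262.QE Pool.Agent.Y264.QR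

theorem tHb : StHb := _root_.Run7.h579.EF.t_StHb

theorem tCmp : StCmp := Pool.Agent.Run7.h586.EF.stCmp tInt tFin

theorem tFld : StFld := Pool.Agent.Run7.h586.EF.stFld

theorem tLinA : StLinA := Pool.Agent.Run7.h888.EF.t_LinA

theorem tLinB : StLinB := Pool.Agent.Run7.h888.EF.t_LinB

theorem tLps : StLps := Pool.Agent.Run7.h722.EF.StLps tFin tGr tLinA tCmp

theorem tRA : StRA := Pool.Agent.Run7.h354.EF.stRA Pool.Agent.Y147.QR.stAE
  Pool.Agent.Y147.QR.stFTC Pool.Agent.Y401.QR.t_Dens Pool.Agent.Y401.QR.t_QL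

theorem tSpec : StSpec := Pool.Agent.Run7.h354.EF.stSpec tFin tFm Pool.Agent.Y592.QE.mm tDenF
  tPackF tBr tWl

theorem tDV : StDV := Pool.Agent.Run7.h437.EF.tDV

theorem tDif : StDif := Pool.Agent.Run7.h437.EF.tDif tFin tGr tLinB tCmp tFld

theorem tGx : StGx := Pool.Agent.Run7.h305.EFGx.t tFin tGr

theorem tKf : StKf := Pool.Agent.Run7.h722.EF.StKf tFin Pool.Agent.Y469.QE.mul tFld

theorem tUB : StUB := ub tGr Pool.Agent.Y592.QE.mm tDenF tGx tSpec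

theorem tFx : StFx := fx (ar tLinA tInt)

theorem tCp : StCp := Pool.Agent.Run7.h270.EF.t_StCp

theorem tMd : StMd := Pool.Agent.Run7.h270.EF.t_StMd

theorem main {M : Type} [MetricSpace M] [CompactSpace M] [MeasurableSpace M] [BorelSpace M]
    [Nonempty M] {Ω : Type} {D : Data M} {θ : ℝ → Ω → Ω}
    {A : Ω → Fin D.N → ℂ → ℂ →L[ℝ] ℂ} {μ : Ω → Measure M} {h : Ω → Tn D} {K : ℝ}
    (hF : IsFam D θ A μ h K) (u : Ω → ℕ → M → ℝ) (lam : Ω → ℕ → ℝ) (W : Ω → ℕ → M → ℂ)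
    (hu : ∀ o, EigBasis (wth D (A o)) (μ o) (u o) (lam o))
    (hW : ∀ o j, IsGrad (wth D (A o)) (μ o) (lam o j) (u o j) (W o j))
    (X : ℕ → Ω → ℝ) (Y : Ω → ℝ)
    (hX : ∀ j o, X j o = kpp D (A o) (μ o) (h o) (lam o j) (u o j) (W o j))
    (hY : ∀ o, Y o = (∫ x, 1 / 2 * trc D (A o) (h o) x ∂(μ o)) / (μ o).real univ) :
    (∀ o,
      (∀ᵐ t : ℝ, ∀ j, HasDerivAt (fun s => lam (θ s o) j) (-(X j (θ t o) * lam (θ t o) j)) t) ∧
      (∀ t : ℝ, HasDerivAt (fun s => Real.log ((μ (θ s o)).real univ)) (Y (θ t o)) t) ∧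
      (∀ χ : ℝ → ℝ, Integrable χ volume →
        Tendsto (fun j => ∫ t, χ t * X j (θ t o)) atTop (𝓝 (∫ t, χ t * Y (θ t o)))) ∧
      ∀ J : ℕ → ℕ, Tendsto J atTop atTop → ∀ᵐ t : ℝ, ∀ L : ℝ,
        Tendsto (fun k => X (J k) (θ t o)) atTop (𝓝 L) → L = Y (θ t o)) ∧
    ∀ [MeasurableSpace Ω] (P : Measure Ω) [IsProbabilityMeasure P],
      (Measurable fun p : ℝ × Ω => θ p.1 p.2) → (∀ t, P.map (θ t) ≪ P) →
      (∀ j, Measurable fun o => lam o j) → (Measurable fun o => (μ o).real univ) →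
      (∃ J₀ : ℕ, ∀ j, J₀ ≤ j → AEStronglyMeasurable (X j) P) ∧ Measurable Y ∧
      (∀ χ : Ω → ℝ, Integrable χ P →
        Tendsto (fun j => ∫ o, χ o * X j o ∂P) atTop (𝓝 (∫ o, χ o * Y o ∂P))) ∧
      ∀ J : ℕ → ℕ, Tendsto J atTop atTop → ∀ᵐ o ∂P, ∀ L : ℝ,
        Tendsto (fun k => X (J k) o) atTop (𝓝 L) → L = Y o := by
  refine ⟨fun o => ?_, ?_⟩
  · have h1 := one tHb tLps tUB tSpec tKf tDif tDV tRA hF u lam W hu hW o
    simp only [hX, hY]
    exact h1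
  · intro _ P _ hθ hP hlm harm
    exact flow2 Pool.Agent.Y941.QR.qn Pool.Agent.Y941.QR.qw Pool.Agent.Y401.QR.t_QL tFld tCp tMd
      tHb tLps tUB tSpec tKf tDif tDV tRA hF u lam W hu hW X hX Y hY P hθ hP hlm harm

end Pool.Agent.Run7.h408.EF
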