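import Pool.Agent.Run7.h408.EF.Fl
import Pool.Agent.Y264.QR.Ex

/-!
# Project EF (helper408): existence of the bases with their gradients
-/

set_option autoImplicit false

open Set Filter Topology MeasureTheory
open scoped Real ContDiff
open Pool.Agent.Y262.QE Pool.Agent.Y264.QR

noncomputable section

namespace Pool.Agent.Run7.h408.EF

theorem ex (hEx : StEx) (hGx : StGx) {M : Type} [MetricSpace M] [CompactSpace M]
    [MeasurableSpace M] [BorelSpace M] [Nonempty M] (μ : Measure M) (D : Data M)
    (hD : D.IsSurf μ) : ∃ (u : ℕ → M → ℝ) (lam : ℕ → ℝ) (W : ℕ → M → ℂ), EigBasis D μ u lam ∧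
      ∀ j, IsGrad D μ (lam j) (u j) (W j) := by
  obtain ⟨u, lam, hu⟩ := hEx M μ D hD inferInstance 0
  rw [conf_zero, wm_zero] at hu
  choose W hW using fun j => hGx M μ D hD (lam j) (u j) (hu.eig j)
  exact ⟨u, lam, W, hu, hW⟩

end Pool.Agent.Run7.h408.EF
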