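import Pool.Agent.Run7.h408.EF.Top

/-!
# Project EF (helper408): quasi-invariant flows of metrics, existence of the bases
-/

set_option autoImplicit false

open Set Filter Topology MeasureTheory
open scoped Real ContDiff
open Pool.Agent.Y262.QE Pool.Agent.Y264.QR

noncomputable section

namespace Pool.Agent.Run7.h408.EF

section

variable {M : Type} [MetricSpace M] [CompactSpace M] [MeasurableSpace M] [BorelSpace M]
  [Nonempty M]

/-- the pairing is bounded -/
theorem kpp_le (hFld : StFld) (hSpec : StSpec) {D : Data M} {A : Fin D.N → ℂ → ℂ →L[ℝ] ℂ}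
    {μ : Measure M} (hD : (wth D A).IsSurf μ) {h : Tn D} {K : ℝ} (hK : 0 ≤ K) (hT : IsTn D A h K)
    (u : ℕ → M → ℝ) (lam : ℕ → ℝ) (W : ℕ → M → ℂ) (hu : EigBasis (wth D A) μ u lam)
    (hW : ∀ j, IsGrad (wth D A) μ (lam j) (u j) (W j)) (j : ℕ) :
    |kpp D A μ h (lam j) (u j) (W j)| ≤ 3 * K := by
  obtain ⟨-, -, a, b, e, hFm, hE, ha, hb, he⟩ := hSpec M μ (wth D A) hD inferInstance u lam hu W hW
  obtain ⟨-, -, f3, f4, -, -, -⟩ := hFld M μ D A hD h K hT
  have hlam : 0 ≤ lam j := by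
    have h2 := hFm.na (e j)
    rwa [hE.eig, hE.orth, if_pos rfl, mul_one] at h2
  have hu2 : ∫ x, (u j x) ^ 2 ∂μ = 1 := by
    have h1 := hu.orth j j
    rw [if_pos rfl] at h1
    rw [← h1]
    exact integral_congr_ae (Eventually.of_forall fun x => by
      show (u j x) ^ 2 = u j x * u j x
      ring)
  have hW2 : ∫ x, ‖W j x‖ ^ 2 ∂μ = lam j := by
    have h1 : a (e j) (e j) = lam j := by rw [hE.eig, hE.orth, if_pos rfl, mul_one]
    rw [← h1, ha]
    refine integral_congr_ae ?_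
    filter_upwards [(he j).2] with x hx
    rw [hx]
  have iu : Integrable (fun x => (u j x) ^ 2) μ := by
    have h1 := (hu.eig j).mem.integrable_sq
    exact h1
  have iW : Integrable (fun x => ‖W j x‖ ^ 2) μ := (hW j).mem.integrable_norm_pow (by norm_num)
  have b1 : |∫ x, 1 / 2 * trc D A h x * (u j x) ^ 2 ∂μ| ≤ K := by
    have h1 := norm_integral_le_of_norm_le (f := fun x => 1 / 2 * trc D A h x * (u j x) ^ 2)
      (g := fun x => K * (u j x) ^ 2) (iu.const_mul K) (Eventually.of_forall fun x => by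
        rw [Real.norm_eq_abs, abs_mul, abs_mul, abs_of_nonneg (sq_nonneg (u j x))]
        refine mul_le_mul_of_nonneg_right ?_ (sq_nonneg _)
        have := f4 x
        rw [abs_of_pos (by norm_num : (0 : ℝ) < 1 / 2)]
        linarith)
    rw [integral_const_mul, hu2, mul_one] at h1
    exact h1
  have b2 : |∫ x, (fld D A h (W j x) (W j x) x - 1 / 2 * trc D A h x * ‖W j x‖ ^ 2) ∂μ| ≤
      2 * K * lam j := by
    have h1 := norm_integral_le_of_norm_le
      (f := fun x => fld D A h (W j x) (W j x) x - 1 / 2 * trc D A h x * ‖W j x‖ ^ 2)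
      (g := fun x => 2 * K * ‖W j x‖ ^ 2) (iW.const_mul (2 * K))
      (Eventually.of_forall fun x => by
        rw [Real.norm_eq_abs]
        refine (abs_sub _ _).trans ?_
        have g1 := f3 (W j x) x
        have g2 : |1 / 2 * trc D A h x * ‖W j x‖ ^ 2| ≤ K * ‖W j x‖ ^ 2 := by
          rw [abs_mul, abs_mul, abs_of_nonneg (sq_nonneg ‖W j x‖),
            abs_of_pos (by norm_num : (0 : ℝ) < 1 / 2)]
          refine mul_le_mul_of_nonneg_right ?_ (sq_nonneg _)
          have := f4 x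
          linarith
        linarith)
    rw [integral_const_mul, hW2] at h1
    exact h1
  have b3 : |(lam j)⁻¹ * ∫ x, (fld D A h (W j x) (W j x) x -
      1 / 2 * trc D A h x * ‖W j x‖ ^ 2) ∂μ| ≤ 2 * K := by
    rw [abs_mul, abs_of_nonneg (inv_nonneg.2 hlam)]
    rcases hlam.eq_or_lt with h0 | h0
    · rw [← h0, inv_zero, zero_mul]
      positivity
    · rw [inv_mul_le_iff₀ h0]
      linarith
  unfold kpp
  refine (abs_add_le _ _).trans ?_
  linarith

/-- quasi-invariant measures -/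
theorem flow (hQW : StQW) (hQL : StQL) (hFld : StFld) (hSpec : StSpec) (hHb : StHb) {Ω : Type}
    {D : Data M} {θ : ℝ → Ω → Ω}
    {A : Ω → Fin D.N → ℂ → ℂ →L[ℝ] ℂ} {μ : Ω → Measure M} {h : Ω → Tn D} {K : ℝ}
    (hF : IsFam D θ A μ h K) (u : Ω → ℕ → M → ℝ) (lam : Ω → ℕ → ℝ) (W : Ω → ℕ → M → ℂ)
    (hu : ∀ o, EigBasis (wth D (A o)) (μ o) (u o) (lam o))
    (hW : ∀ o j, IsGrad (wth D (A o)) (μ o) (lam o j) (u o j) (W o j))
    (X : ℕ → Ω → ℝ) (hX : ∀ j o, X j o = kpp D (A o) (μ o) (h o) (lam o j) (u o j) (W o j))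
    (Y : Ω → ℝ)
    (hY : ∀ o, Y o = (∫ x, 1 / 2 * trc D (A o) (h o) x ∂(μ o)) / (μ o).real univ)
    (hone : ∀ o, ∀ χ : ℝ → ℝ, Integrable χ volume →
      Tendsto (fun j => ∫ t, χ t * X j (θ t o)) atTop (𝓝 (∫ t, χ t * Y (θ t o))))
    [MeasurableSpace Ω] (P : Measure Ω) [IsProbabilityMeasure P]
    (hθ : Measurable fun p : ℝ × Ω => θ p.1 p.2) (hP : ∀ t, P.map (θ t) ≪ P)
    (hXm : ∀ j, Measurable (X j)) (hYm : Measurable Y) :
    (∀ χ : Ω → ℝ, Integrable χ P →
      Tendsto (fun j => ∫ o, χ o * X j o ∂P) atTop (𝓝 (∫ o, χ o * Y o ∂P))) ∧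
    ∀ J : ℕ → ℕ, Tendsto J atTop atTop → ∀ᵐ o ∂P, ∀ L : ℝ,
      Tendsto (fun k => X (J k) o) atTop (𝓝 L) → L = Y o := by
  have hK := hF.pos
  have hXb : ∀ j o, |X j o| ≤ 6 * K := by
    intro j o
    rw [hX]
    refine (kpp_le hFld hSpec (hF.surf o) (by positivity) (isTn_of_fam hHb hF o) (u o) (lam o)
      (W o) (hu o) (hW o) j).trans (le_of_eq (by ring))
  have hYb : ∀ o, |Y o| ≤ 6 * K := by
    intro o
    obtain ⟨hm, -⟩ := hSpec M (μ o) (wth D (A o)) (hF.surf o) inferInstance (u o) (lam o) (hu o)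
      (W o) (hW o)
    obtain ⟨-, -, -, f4, -, -, -⟩ := hFld M (μ o) D (A o) (hF.surf o) (h o) (2 * K)
      (isTn_of_fam hHb hF o)
    haveI : IsFiniteMeasure (μ o) := by
      refine ⟨lt_of_le_of_ne le_top fun h' => ?_⟩
      rw [measureReal_def, h'] at hm
      simp at hm
    rw [hY, abs_div, abs_of_pos hm, div_le_iff₀ hm]
    have h1 := norm_integral_le_of_norm_le (μ := μ o)
      (f := fun x => 1 / 2 * trc D (A o) (h o) x) (g := fun _ => 2 * K) (integrable_const _)
      (Eventually.of_forall fun x => by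
        rw [Real.norm_eq_abs, abs_mul, abs_of_pos (by norm_num : (0 : ℝ) < 1 / 2)]
        have := f4 x
        linarith)
    rw [integral_const, smul_eq_mul] at h1
    refine h1.trans ?_
    have : 0 ≤ (μ o).real univ * K := by positivity
    nlinarith
  have hc := hQW Ω P θ ⟨hθ, hF.zero, hF.add, hP⟩ X Y (6 * K) hXm hYm hXb hYb hone
  exact ⟨hc, hQL Ω P X Y (6 * K) (fun j => (hXm j).aestronglyMeasurable)
    hYm.aestronglyMeasurable (fun j => Eventually.of_forall (hXb j)) (Eventually.of_forall hYb) hc⟩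

omit [Nonempty M] in
theorem conf_zero (D : Data M) : (D.conf fun x => Real.exp ((0 : C(M, ℝ)) x)) = D := by
  unfold Data.conf
  simp only [ContinuousMap.zero_apply, Real.exp_zero, Real.sqrt_one, one_smul]

omit [Nonempty M] in
theorem wm_zero (μ : Measure M) : (wm μ fun x => Real.exp ((0 : C(M, ℝ)) x)) = μ := by
  unfold wm
  simp only [ContinuousMap.zero_apply, Real.exp_zero, ENNReal.ofReal_one]
  exact withDensity_one

end

end Pool.Agent.Run7.h408.EF
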