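import Pool.Agent.Y264.QR.Stm2

/-!
# Project EF (helper408): energy tensors of eigenfunctions in families of metrics - statements

`D` gives the charts of a closed surface `M`, `A` a field of orthonormal coframes in the charts: the
metric is `v ↦ ‖A i z v‖ ^ 2`. `h` is a field of symmetric bilinear forms in the charts, the derivative
of the metric in a family. `fld D A h v w x` is the value of `h` on the vectors with coordinates `v`, `w`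
in the orthonormal frame at `x` (of the first chart which contains `x`).

All statements below are closed propositions. They are to be proved with the library QE and QR
(`Pool.Agent.Y262.QE`, `Pool.Agent.Y264.QR`), where `tFin`, `tGr`, `tInt` (`Pool/Agent/Y262/QE/All.lean`)
and `tFm`, `tLip`, `tDenF`, `tPackF`, `tBr`, `tWl` (`Pool/Agent/Y264/QR/All.lean`) are available; it is
better to take them as hypotheses (`theorem x (hGr : StGr) ... : StFoo`) and to import only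
`Pool.Agent.Y264.QR.Stm2` and the small files which are needed.
-/

set_option autoImplicit false

open Set Filter Topology MeasureTheory
open scoped Real ContDiff
open Pool.Agent.Y262.QE Pool.Agent.Y264.QR

noncomputable section

namespace Pool.Agent.Run7.h408.EF

section defs

variable {M : Type}

/-- the surface with the charts of `D` and the orthonormal coframes `A` -/
def wth (D : Data M) (A : Fin D.N → ℂ → ℂ →L[ℝ] ℂ) : Data M where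
  N := D.N
  U := D.U
  φ := D.φ
  ψ := D.ψ
  A := A

/-- a field of bilinear forms in the charts -/
abbrev Tn (D : Data M) : Type := Fin D.N → ℂ → ℂ →L[ℝ] ℂ →L[ℝ] ℝ

/-- the value of the field on the vectors with the coordinates `v`, `w` in the orthonormal frame -/
def fld (D : Data M) (A : Fin D.N → ℂ → ℂ →L[ℝ] ℂ) (h : Tn D) (v w : ℂ) (x : M) : ℝ :=
  ∑ i, (D.pc i).indicator (fun x => h i (D.φ i x) ((A i (D.φ i x)).inverse v)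
    ((A i (D.φ i x)).inverse w)) x

/-- the trace of the field with respect to the metric -/
def trc (D : Data M) (A : Fin D.N → ℂ → ℂ →L[ℝ] ℂ) (h : Tn D) (x : M) : ℝ :=
  fld D A h 1 1 x + fld D A h Complex.I Complex.I x

/-- the field is symmetric, continuous and bounded by `K` times the metric -/
structure IsTn (D : Data M) (A : Fin D.N → ℂ → ℂ →L[ℝ] ℂ) (h : Tn D) (K : ℝ) : Prop where
  symm : ∀ i z v w, h i z v w = h i z w v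
  cont : ∀ i, ContinuousOn (h i) (D.T i)
  bdd : ∀ i, ∀ z ∈ D.T i, ∀ v, |h i z v v| ≤ K * ‖A i z v‖ ^ 2

/-- `u` is a weak eigenfunction with the gradient `W` -/
structure IsGrad [MeasurableSpace M] (D : Data M) (μ : Measure M) (lam : ℝ) (u : M → ℝ)
    (W : M → ℂ) : Prop where
  mem : MemLp W 2 μ
  ex : ∃ F : ℕ → M → ℝ, (∀ k, D.C1 (F k)) ∧
    Tendsto (fun k => ∫ x, (F k x - u x) ^ 2 ∂μ) atTop (𝓝 0) ∧
    Tendsto (fun k => ∫ x, ‖D.gr (F k) x - W x‖ ^ 2 ∂μ) atTop (𝓝 0)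
  eq : ∀ G : M → ℝ, D.C1 G → ∫ x, inner ℝ (W x) (D.gr G x) ∂μ = lam * ∫ x, u x * G x ∂μ

/-- the pairing of `h` with the stress-energy tensor of `u`, divided by the eigenvalue: for
`lam = E`, `∫ u ^ 2 = 1` and `h = dg / dt` this is `- d (log E) / dt` -/
def kpp [MeasurableSpace M] (D : Data M) (A : Fin D.N → ℂ → ℂ →L[ℝ] ℂ) (μ : Measure M) (h : Tn D)
    (lam : ℝ) (u : M → ℝ) (W : M → ℂ) : ℝ :=
  (∫ x, 1 / 2 * trc D A h x * (u x) ^ 2 ∂μ) +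
    lam⁻¹ * ∫ x, (fld D A h (W x) (W x) x - 1 / 2 * trc D A h x * ‖W x‖ ^ 2) ∂μ

end defs

/-! ### P1: linear algebra in the plane -/

/-- `P1a` -/
def StLinA : Prop :=
  ∀ (A₀ A₁ : ℂ →L[ℝ] ℂ) (L : ℝ), A₀.det ≠ 0 → A₁.det ≠ 0 → 0 < L → (∀ v, ‖A₁ v‖ ≤ L * ‖A₀ v‖) →
    |A₁.det| ≤ L ^ 2 * |A₀.det| ∧ ∀ P : ℂ →L[ℝ] ℝ, ‖grd A₀ P‖ ≤ L * ‖grd A₁ P‖

/-- `P1b`: the change of the area and of the Dirichlet density. With `B = A₁ ∘ A₀⁻¹` and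
`C = Bᵀ B = 1 + τ S + O (ε' τ)` one has `|det A₁| ‖grd A₁ P‖ ^ 2 = |det A₀| (tr C ‖w‖ ^ 2 - ⟨C w, w⟩) /
√(det C)` for `w = grd A₀ P`. -/
def StLinB : Prop :=
  ∀ (K ε : ℝ), 0 ≤ K → 0 < ε → ∃ δ ε' : ℝ, 0 < δ ∧ 0 < ε' ∧ ∀ τ : ℝ, |τ| < δ →
    ∀ (A₀ A₁ : ℂ →L[ℝ] ℂ), A₀.det ≠ 0 → A₁.det ≠ 0 → ∀ h : ℂ →L[ℝ] ℂ →L[ℝ] ℝ,
    (∀ v w, h v w = h w v) → (∀ v, |h v v| ≤ K * ‖A₀ v‖ ^ 2) →
    (∀ v, |‖A₁ v‖ ^ 2 - ‖A₀ v‖ ^ 2 - τ * h v v| ≤ ε' * |τ| * ‖A₀ v‖ ^ 2) →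
    let t : ℝ := h (A₀.inverse 1) (A₀.inverse 1) + h (A₀.inverse Complex.I) (A₀.inverse Complex.I)
    |(|A₁.det| - |A₀.det| * (1 + τ * (1 / 2 * t)))| ≤ ε * |τ| * |A₀.det| ∧
    ∀ P : ℂ →L[ℝ] ℝ, |A₁.det| * ‖grd A₁ P‖ ^ 2 ≤
      |A₀.det| * (‖grd A₀ P‖ ^ 2 + τ * (1 / 2 * t * ‖grd A₀ P‖ ^ 2 -
        h (A₀.inverse (grd A₀ P)) (A₀.inverse (grd A₀ P))) + ε * |τ| * ‖grd A₀ P‖ ^ 2)

/-- `P0`: the derivative of a Lipschitz family of metrics is bounded -/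
def StHb : Prop :=
  ∀ (K : ℝ), 0 ≤ K → ∀ (n : ℝ → ℝ) (c : ℝ), (∀ s, 0 ≤ n s) →
    (∀ s t, n s ≤ Real.exp (K * |s - t|) * n t) →
    (∀ ε : ℝ, 0 < ε → ∃ δ : ℝ, 0 < δ ∧ ∀ τ : ℝ, |τ| < δ →
      |n τ ^ 2 - n 0 ^ 2 - τ * c| ≤ ε * |τ| * n 0 ^ 2) → |c| ≤ 2 * K * n 0 ^ 2

/-! ### P2: comparison of integrals -/

/-- `P2` -/
def StCmp : Prop :=
  ∀ (M : Type) [MetricSpace M] [CompactSpace M] [MeasurableSpace M] [BorelSpace M]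
    (μ μ' : Measure M) (D : Data M) (A A' : Fin D.N → ℂ → ℂ →L[ℝ] ℂ), (wth D A).IsSurf μ →
    (wth D A').IsSurf μ' → ∀ g g' : M → ℝ, Measurable g → Measurable g' →
    (∃ C : ℝ, ∀ x, |g' x| ≤ C) → (∀ x, 0 ≤ g x) →
    (∀ i, ∀ x ∈ D.pc i, |(A i (D.φ i x)).det| * g x ≤ |(A' i (D.φ i x)).det| * g' x) →
    ∫ x, g x ∂μ ≤ ∫ x, g' x ∂μ'

/-! ### P3: tensor fields on surfaces -/

/-- `P3a` -/
def StFld : Prop :=
  ∀ (M : Type) [MetricSpace M] [CompactSpace M] [MeasurableSpace M] [BorelSpace M]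
    (μ : Measure M) (D : Data M) (A : Fin D.N → ℂ → ℂ →L[ℝ] ℂ), (wth D A).IsSurf μ →
    ∀ (h : Tn D) (K : ℝ), IsTn D A h K →
    (∀ v w, Measurable (fld D A h v w)) ∧ (∀ v w x, fld D A h v w x = fld D A h w v x) ∧
    (∀ v x, |fld D A h v v x| ≤ K * ‖v‖ ^ 2) ∧ (∀ x, |trc D A h x| ≤ 2 * K) ∧
    (∀ x, |fld D A h 1 Complex.I x| ≤ 2 * K) ∧
    (∀ v x, fld D A h v v x = fld D A h 1 1 x * v.re ^ 2 +
      2 * fld D A h 1 Complex.I x * (v.re * v.im) + fld D A h Complex.I Complex.I x * v.im ^ 2) ∧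
    Measurable (fun p : M × ℂ => fld D A h p.2 p.2 p.1)

/-- `P3b`: the derivatives of the two forms -/
def StKf : Prop :=
  ∀ (M : Type) [MetricSpace M] [CompactSpace M] [MeasurableSpace M] [BorelSpace M]
    (μ : Measure M) (D : Data M) (A : Fin D.N → ℂ → ℂ →L[ℝ] ℂ), (wth D A).IsSurf μ →
    ∀ (h : Tn D) (K : ℝ), IsTn D A h K →
    ∃ ka kb : HF (wth D A) μ →L[ℝ] HF (wth D A) μ →L[ℝ] ℝ, (∀ u v, ka u v = ka v u) ∧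
      (∀ u v, kb u v = kb v u) ∧
      (∀ v, kb v v = ∫ x, 1 / 2 * trc D A h x * ((v.1.fst : M → ℝ) x) ^ 2 ∂μ) ∧
      ∀ v, ka v v = ∫ x, (1 / 2 * trc D A h x * ‖(v.1.snd : M → ℂ) x‖ ^ 2 -
        fld D A h ((v.1.snd : M → ℂ) x) ((v.1.snd : M → ℂ) x) x) ∂μ

/-! ### P4: the change of the two forms and of the area -/

/-- `P4a` -/
def StLps : Prop :=
  ∀ (M : Type) [MetricSpace M] [CompactSpace M] [MeasurableSpace M] [BorelSpace M]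
    (μ₀ μ₁ : Measure M) (D : Data M) (A₀ A₁ : Fin D.N → ℂ → ℂ →L[ℝ] ℂ), (wth D A₀).IsSurf μ₀ →
    (wth D A₁).IsSurf μ₁ → ∀ L : ℝ, 0 < L →
    (∀ i, ∀ z ∈ D.T i, ∀ v, ‖A₁ i z v‖ ≤ L * ‖A₀ i z v‖ ∧ ‖A₀ i z v‖ ≤ L * ‖A₁ i z v‖) →
    (∀ F, D.C1 F → ∫ x, ‖(wth D A₁).gr F x‖ ^ 2 ∂μ₁ ≤ L ^ 4 * ∫ x, ‖(wth D A₀).gr F x‖ ^ 2 ∂μ₀ ∧
      ∫ x, (F x) ^ 2 ∂μ₀ ≤ L ^ 2 * ∫ x, (F x) ^ 2 ∂μ₁) ∧
    μ₁.real univ ≤ L ^ 2 * μ₀.real univ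

/-- `P4b` -/
def StDif : Prop :=
  ∀ (M : Type) [MetricSpace M] [CompactSpace M] [MeasurableSpace M] [BorelSpace M]
    (μ₀ : Measure M) (D : Data M) (A₀ : Fin D.N → ℂ → ℂ →L[ℝ] ℂ), (wth D A₀).IsSurf μ₀ →
    ∀ (h : Tn D) (K : ℝ), IsTn D A₀ h K → 0 ≤ K → ∀ ε : ℝ, 0 < ε → ∃ δ ε' : ℝ, 0 < δ ∧ 0 < ε' ∧
    ∀ τ : ℝ, |τ| < δ → ∀ (A₁ : Fin D.N → ℂ → ℂ →L[ℝ] ℂ) (μ₁ : Measure M), (wth D A₁).IsSurf μ₁ →
    (∀ i, ∀ z ∈ D.T i, ∀ v, |‖A₁ i z v‖ ^ 2 - ‖A₀ i z v‖ ^ 2 - τ * h i z v v| ≤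
      ε' * |τ| * ‖A₀ i z v‖ ^ 2) →
    (∀ F, D.C1 F →
      ∫ x, ‖(wth D A₁).gr F x‖ ^ 2 ∂μ₁ ≤ (∫ x, ‖(wth D A₀).gr F x‖ ^ 2 ∂μ₀) +
        τ * (∫ x, (1 / 2 * trc D A₀ h x * ‖(wth D A₀).gr F x‖ ^ 2 -
          fld D A₀ h ((wth D A₀).gr F x) ((wth D A₀).gr F x) x) ∂μ₀) +
        ε * |τ| * ∫ x, ‖(wth D A₀).gr F x‖ ^ 2 ∂μ₀ ∧
      (∫ x, (F x) ^ 2 ∂μ₀) + τ * (∫ x, 1 / 2 * trc D A₀ h x * (F x) ^ 2 ∂μ₀) -
        ε * |τ| * (∫ x, (F x) ^ 2 ∂μ₀) ≤ ∫ x, (F x) ^ 2 ∂μ₁) ∧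
    |μ₁.real univ - μ₀.real univ - τ * ∫ x, 1 / 2 * trc D A₀ h x ∂μ₀| ≤
      ε * |τ| * μ₀.real univ

/-! ### P5: an upper bound for the eigenvalues -/

/-- `P5`: minimax principle with vectors of the form domain of another metric; `a` and `b` are any
continuous symmetric forms which compare with the forms of `D₁` on the `C¹` functions -/
def StUB : Prop :=
  ∀ (M : Type) [MetricSpace M] [CompactSpace M] [MeasurableSpace M] [BorelSpace M]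
    (μ₀ μ₁ : Measure M) (D₀ D₁ : Data M), D₀.IsSurf μ₀ → D₁.IsSurf μ₁ → Nonempty M →
    (∀ F, D₀.C1 F → D₁.C1 F) → ∀ (u : ℕ → M → ℝ) (lam : ℕ → ℝ), EigBasis D₁ μ₁ u lam →
    ∀ (a b : HF D₀ μ₀ →L[ℝ] HF D₀ μ₀ →L[ℝ] ℝ), (∀ u v, a u v = a v u) → (∀ u v, b u v = b v u) →
    (∀ F, D₀.C1 F → ∀ v : HF D₀ μ₀, (v.1.fst : M → ℝ) =ᵐ[μ₀] F →
      (v.1.snd : M → ℂ) =ᵐ[μ₀] D₀.gr F →
      ∫ x, ‖D₁.gr F x‖ ^ 2 ∂μ₁ ≤ a v v ∧ b v v ≤ ∫ x, (F x) ^ 2 ∂μ₁) →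
    ∀ (j : ℕ) (f : Fin (j + 1) → HF D₀ μ₀) (Λ η : ℝ), 0 ≤ Λ → 0 < η →
    (∀ c : Fin (j + 1) → ℝ,
      a (∑ p, c p • f p) (∑ p, c p • f p) + η * ∑ p, (c p) ^ 2 ≤
        Λ * b (∑ p, c p • f p) (∑ p, c p • f p) ∧
      η * ∑ p, (c p) ^ 2 ≤ b (∑ p, c p • f p) (∑ p, c p • f p)) →
    lam j ≤ Λ

/-! ### P6: eigenfunctions and eigenvectors -/

/-- `P6a`: the gradient of an eigenfunction exists -/
def StGx : Prop :=
  ∀ (M : Type) [MetricSpace M] [CompactSpace M] [MeasurableSpace M] [BorelSpace M]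
    (μ : Measure M) (D : Data M), D.IsSurf μ → ∀ (lam : ℝ) (u : M → ℝ), D.IsEig μ lam u →
    ∃ W : M → ℂ, IsGrad D μ lam u W

/-- `P6b`: an eigenbasis with its gradients is a system of eigenvectors in the form domain; Weyl's
law -/
def StSpec : Prop :=
  ∀ (M : Type) [MetricSpace M] [CompactSpace M] [MeasurableSpace M] [BorelSpace M]
    (μ : Measure M) (D : Data M), D.IsSurf μ → Nonempty M → ∀ (u : ℕ → M → ℝ) (lam : ℕ → ℝ),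
    EigBasis D μ u lam → ∀ W : ℕ → M → ℂ, (∀ j, IsGrad D μ (lam j) (u j) (W j)) →
    0 < μ.real univ ∧
    Tendsto (fun j : ℕ => lam j / ((j : ℝ) + 1)) atTop (𝓝 (4 * π / μ.real univ)) ∧
    ∃ (a b : HF D μ →L[ℝ] HF D μ →L[ℝ] ℝ) (e : ℕ → HF D μ), Fm a b ∧ Eg a b e lam ∧
      (∀ v, a v v = ∫ x, ‖(v.1.snd : M → ℂ) x‖ ^ 2 ∂μ) ∧
      (∀ v, b v v = ∫ x, ((v.1.fst : M → ℝ) x) ^ 2 ∂μ) ∧
      ∀ j, ((e j).1.fst : M → ℝ) =ᵐ[μ] u j ∧ ((e j).1.snd : M → ℂ) =ᵐ[μ] W j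

/-! ### P7: perturbation of a pair of forms -/

/-- `P7`: the eigenvectors `e 0, ..., e (i - 1), e j` are good test vectors for the perturbed forms
`a + τ ka + ε' |τ| a` and `b + τ kb - ε' |τ| b`; `i` is the first index with the eigenvalue `E j` -/
def StDV : Prop :=
  ∀ (H : Type) [NormedAddCommGroup H] [InnerProductSpace ℝ H] (a b : H →L[ℝ] H →L[ℝ] ℝ), Fm a b →
    ∀ (e : ℕ → H) (E : ℕ → ℝ), Eg a b e E → ∀ (ka kb : H →L[ℝ] H →L[ℝ] ℝ),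
    (∀ u v, ka u v = ka v u) → (∀ u v, kb u v = kb v u) → ∀ (i j : ℕ), E i = E j →
    (∀ l, l < i → E l < E i) → 0 < E i → ∀ ε : ℝ, 0 < ε →
    ∃ δ ε' : ℝ, 0 < δ ∧ 0 < ε' ∧ ∀ τ : ℝ, 0 < |τ| → |τ| < δ →
      0 ≤ E i + τ * (ka (e j) (e j) - E i * kb (e j) (e j)) + ε * |τ| ∧
      ∃ (f : Fin (i + 1) → H) (η : ℝ), 0 < η ∧ ∀ c : Fin (i + 1) → ℝ, ∀ v : H,
        v = ∑ p, c p • f p →
        (a v v + τ * ka v v + ε' * |τ| * a v v) + η * ∑ p, (c p) ^ 2 ≤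
          (E i + τ * (ka (e j) (e j) - E i * kb (e j) (e j)) + ε * |τ|) *
            (b v v + τ * kb v v - ε' * |τ| * b v v) ∧
        η * ∑ p, (c p) ^ 2 ≤ b v v + τ * kb v v - ε' * |τ| * b v v

/-! ### P8: one real variable -/

/-- `P8`: from the inequalities to the theorem, for one parameter; `Ar` is the area, `β` its
logarithmic derivative, `E j` the eigenvalues, `κ j` minus their logarithmic derivatives. (Compare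
`Pool/Agent/Y155/QR/One.lean`; `StAE`, `StFTC`, `StDens`, `StQL` are available.) -/
def StRA : Prop :=
  ∀ (E κ : ℕ → ℝ → ℝ) (Ar β : ℝ → ℝ) (K : ℝ), 0 ≤ K → (∀ j t, 0 ≤ E j t) →
    (∀ i j t, i ≤ j → E i t ≤ E j t) → (∀ j s t, E j s ≤ Real.exp (K * |s - t|) * E j t) →
    (∀ i j t, E i t = E j t → (∀ l, l < i → E l t < E i t) → ∀ ε : ℝ, 0 < ε →
      ∃ δ : ℝ, 0 < δ ∧ ∀ τ : ℝ, |τ| < δ →
        E i (t + τ) ≤ E i t * (1 - κ j t * τ) + ε * |τ|) →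
    (∀ t, 0 < Ar t) → (∀ s t, Ar s ≤ Real.exp (K * |s - t|) * Ar t) →
    (∀ t, HasDerivAt Ar (β t * Ar t) t) →
    (∀ t, Tendsto (fun j : ℕ => E j t / ((j : ℝ) + 1)) atTop (𝓝 (4 * π / Ar t))) →
    (∀ᵐ t : ℝ, ∀ j, HasDerivAt (E j) (-(κ j t * E j t)) t) ∧
    (∀ χ : ℝ → ℝ, Integrable χ volume →
      Tendsto (fun j => ∫ t, χ t * κ j t) atTop (𝓝 (∫ t, χ t * β t))) ∧
    ∀ J : ℕ → ℕ, Tendsto J atTop atTop → ∀ᵐ t : ℝ, ∀ L : ℝ,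
      Tendsto (fun k => κ (J k) t) atTop (𝓝 L) → L = β t

end Pool.Agent.Run7.h408.EF
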