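import Pool.Agent.Run7.h408.EF.Top

/-!
# Project EF (helper408): statements, part two: families in every direction
-/

set_option autoImplicit false

open Set Filter Topology MeasureTheory
open scoped Real ContDiff
open Pool.Agent.Y262.QE Pool.Agent.Y264.QR

noncomputable section

namespace Pool.Agent.Run7.h408.EF

/-- `P9`: every continuous metric on the charts of a surface has an area: the density of `μ₁` with
respect to `μ₀` is `|det A₁| / |det A₀|` in every chart (by the transformation of both determinants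
under the changes of charts it does not depend on the chart). Model: `Pool/Agent/Y492/QE/Conf.lean`. -/
def StAr : Prop :=
  ∀ (M : Type) [MetricSpace M] [CompactSpace M] [MeasurableSpace M] [BorelSpace M]
    (μ₀ : Measure M) (D : Data M) (A₀ : Fin D.N → ℂ → ℂ →L[ℝ] ℂ), (wth D A₀).IsSurf μ₀ →
    ∀ A₁ : Fin D.N → ℂ → ℂ →L[ℝ] ℂ, (∀ i, ∀ z ∈ D.T i, (A₁ i z).det ≠ 0) →
    (∀ i, ContinuousOn (A₁ i) (D.T i)) →
    (∀ i j, ∀ x ∈ D.U i, x ∈ D.U j → ∀ v,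
      ‖A₁ j (D.φ j x) (fderiv ℝ (fun z => D.φ j (D.ψ i z)) (D.φ i x) v)‖ = ‖A₁ i (D.φ i x) v‖) →
    ∃ μ₁ : Measure M, (wth D A₁).IsSurf μ₁

/-- the upper triangular matrix `R` with `Rᵀ R = (c₁₁, c₁₂; c₁₂, c₂₂)` -/
def chol (c₁₁ c₁₂ c₂₂ : ℝ) : ℂ →L[ℝ] ℂ :=
  Real.sqrt c₁₁ • Complex.reCLM.smulRight (1 : ℂ) +
    (c₁₂ / Real.sqrt c₁₁) • Complex.imCLM.smulRight (1 : ℂ) +
    Real.sqrt (c₂₂ - c₁₂ ^ 2 / c₁₁) • Complex.imCLM.smulRight Complex.I

/-- the compatibility of a tensor field with the changes of charts -/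
def Cpt {M : Type} (D : Data M) (h : Tn D) : Prop :=
  ∀ i j, ∀ x ∈ D.U i, x ∈ D.U j → ∀ v,
    h j (D.φ j x) (fderiv ℝ (fun z => D.φ j (D.ψ i z)) (D.φ i x) v)
      (fderiv ℝ (fun z => D.φ j (D.ψ i z)) (D.φ i x) v) = h i (D.φ i x) v v

/-- `P10`: there is a family of metrics through every metric in every direction:
`g_t = g + c sin (t / c) h`, `c = 1 / (2 K₀ + 2)`, with the coframes `chol (...) ∘ A₀`. -/
def StFx : Prop :=
  ∀ (M : Type) [MetricSpace M] [CompactSpace M] [MeasurableSpace M] [BorelSpace M]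
    (μ₀ : Measure M) (D : Data M) (A₀ : Fin D.N → ℂ → ℂ →L[ℝ] ℂ), (wth D A₀).IsSurf μ₀ →
    ∀ (h₀ : Tn D) (K₀ : ℝ), IsTn D A₀ h₀ K₀ → 0 ≤ K₀ → Cpt D h₀ →
    ∃ (A : ℝ → Fin D.N → ℂ → ℂ →L[ℝ] ℂ) (μ : ℝ → Measure M) (h : ℝ → Tn D) (K : ℝ),
      IsFam D (fun s t : ℝ => s + t) A μ h K ∧ A 0 = A₀ ∧ μ 0 = μ₀ ∧ h 0 = h₀

end Pool.Agent.Run7.h408.EF
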