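import Pool.Agent.Run7.h408.EF.Stm

/-!
# Project EF (helper408): the theorem for one parameter from its parts
-/

set_option autoImplicit false

open Set Filter Topology MeasureTheory
open scoped Real ContDiff
open Pool.Agent.Y262.QE Pool.Agent.Y264.QR

noncomputable section

namespace Pool.Agent.Run7.h408.EF

/-- a flow of Riemannian metrics on the surface with the charts of `D` -/
structure IsFam {M Ω : Type} [TopologicalSpace M] [MeasurableSpace M] (D : Data M)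
    (θ : ℝ → Ω → Ω) (A : Ω → Fin D.N → ℂ → ℂ →L[ℝ] ℂ) (μ : Ω → Measure M) (h : Ω → Tn D)
    (K : ℝ) : Prop where
  zero : ∀ o, θ 0 o = o
  add : ∀ s t o, θ (s + t) o = θ s (θ t o)
  pos : 0 ≤ K
  surf : ∀ o, (wth D (A o)).IsSurf (μ o)
  lip : ∀ o s i, ∀ z ∈ D.T i, ∀ v, ‖A (θ s o) i z v‖ ≤ Real.exp (K * |s|) * ‖A o i z v‖
  symm : ∀ o i z v w, h o i z v w = h o i z w v
  cont : ∀ o i, ContinuousOn (h o i) (D.T i)
  der : ∀ o, ∀ ε : ℝ, 0 < ε → ∃ δ : ℝ, 0 < δ ∧ ∀ τ : ℝ, |τ| < δ → ∀ i, ∀ z ∈ D.T i, ∀ v,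
    |‖A (θ τ o) i z v‖ ^ 2 - ‖A o i z v‖ ^ 2 - τ * h o i z v v| ≤ ε * |τ| * ‖A o i z v‖ ^ 2

section

variable {M : Type} [MetricSpace M] [CompactSpace M] [MeasurableSpace M] [BorelSpace M]
  [Nonempty M]

/-- the comparison of the eigenvalues of two metrics -/
theorem lip_eig (hLps : StLps) (hUB : StUB) (hSpec : StSpec) (D : Data M)
    (A₀ A₁ : Fin D.N → ℂ → ℂ →L[ℝ] ℂ) (μ₀ μ₁ : Measure M) (h0 : (wth D A₀).IsSurf μ₀)
    (h1 : (wth D A₁).IsSurf μ₁) (L : ℝ) (hL : 0 < L)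
    (hc : ∀ i, ∀ z ∈ D.T i, ∀ v, ‖A₁ i z v‖ ≤ L * ‖A₀ i z v‖ ∧ ‖A₀ i z v‖ ≤ L * ‖A₁ i z v‖)
    (u₀ u₁ : ℕ → M → ℝ) (lam₀ lam₁ : ℕ → ℝ) (hu₀ : EigBasis (wth D A₀) μ₀ u₀ lam₀)
    (hu₁ : EigBasis (wth D A₁) μ₁ u₁ lam₁) (W₀ : ℕ → M → ℂ)
    (hW₀ : ∀ j, IsGrad (wth D A₀) μ₀ (lam₀ j) (u₀ j) (W₀ j)) (j : ℕ) :
    lam₁ j ≤ L ^ 6 * lam₀ j := by
  obtain ⟨-, -, a, b, e, hF, hE, ha, hb, -⟩ := hSpec M μ₀ (wth D A₀) h0 inferInstance u₀ lam₀ hu₀
    W₀ hW₀
  have hcmp := (hLps M μ₀ μ₁ D A₀ A₁ h0 h1 L hL hc).1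
  have hlam0 : ∀ l, 0 ≤ lam₀ l := by
    intro l
    have h2 := hF.na (e l)
    rwa [hE.eig, hE.orth, if_pos rfl, mul_one] at h2
  have key : ∀ η' : ℝ, 0 < η' → lam₁ j ≤ L ^ 6 * (lam₀ j + η') := by
    intro η' hη'
    refine hUB M μ₀ μ₁ (wth D A₀) (wth D A₁) h0 h1 inferInstance (fun F hF => hF) u₁ lam₁ hu₁
      (L ^ 4 • a) ((L ^ 2)⁻¹ • b) ?_ ?_ ?_ j (fun p => e p) (L ^ 6 * (lam₀ j + η'))
      (min (L ^ 4 * η') (L ^ 2)⁻¹) ?_ ?_ ?_
    · intro v w
      simp only [ContinuousLinearMap.smul_apply, smul_eq_mul]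
      rw [hF.sa]
    · intro v w
      simp only [ContinuousLinearMap.smul_apply, smul_eq_mul]
      rw [hF.sb]
    · intro F hFC v hv1 hv2
      obtain ⟨c1, c2⟩ := hcmp F hFC
      have e1 : a v v = ∫ x, ‖(wth D A₀).gr F x‖ ^ 2 ∂μ₀ := by
        rw [ha]
        refine integral_congr_ae ?_
        filter_upwards [hv2] with x hx
        rw [hx]
      have e2 : b v v = ∫ x, (F x) ^ 2 ∂μ₀ := by
        rw [hb]
        refine integral_congr_ae ?_
        filter_upwards [hv1] with x hx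
        rw [hx]
      simp only [ContinuousLinearMap.smul_apply, smul_eq_mul]
      rw [e1, e2]
      refine ⟨c1, ?_⟩
      rw [inv_mul_le_iff₀ (by positivity)]
      exact c2
    · have := hlam0 j
      positivity
    · exact lt_min (by positivity) (by positivity)
    · intro c
      have hb2 : b (∑ p : Fin (j + 1), c p • e p) (∑ p : Fin (j + 1), c p • e p) =
          ∑ p, (c p) ^ 2 := by
        simp only [map_sum, map_smul, ContinuousLinearMap.sum_apply, ContinuousLinearMap.smul_apply,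
          smul_eq_mul, hE.orth]
        refine Finset.sum_congr rfl fun p _ => ?_
        rw [Finset.sum_eq_single p]
        · rw [if_pos rfl]; ring
        · intro q _ hq
          rw [if_neg]
          · ring
          · intro h
            exact hq (Fin.ext h)
        · intro h
          exact absurd (Finset.mem_univ p) h
      have ha2 : a (∑ p : Fin (j + 1), c p • e p) (∑ p : Fin (j + 1), c p • e p) =
          ∑ p : Fin (j + 1), lam₀ p * (c p) ^ 2 := by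
        simp only [map_sum, map_smul, ContinuousLinearMap.sum_apply, ContinuousLinearMap.smul_apply,
          smul_eq_mul, hE.eig, hE.orth]
        refine Finset.sum_congr rfl fun p _ => ?_
        rw [Finset.sum_eq_single p]
        · rw [if_pos rfl]; ring
        · intro q _ hq
          rw [if_neg]
          · ring
          · intro h
            exact hq (Fin.ext h)
        · intro h
          exact absurd (Finset.mem_univ p) h
      have ha3 : ∑ p : Fin (j + 1), lam₀ p * (c p) ^ 2 ≤ lam₀ j * ∑ p, (c p) ^ 2 := by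
        rw [Finset.mul_sum]
        refine Finset.sum_le_sum fun p _ => ?_
        exact mul_le_mul_of_nonneg_right (hE.mono (by omega)) (sq_nonneg _)
      have hs : 0 ≤ ∑ p : Fin (j + 1), (c p) ^ 2 := Finset.sum_nonneg fun p _ => sq_nonneg _
      simp only [ContinuousLinearMap.smul_apply, smul_eq_mul]
      rw [ha2, hb2]
      have m1 := min_le_left (L ^ 4 * η') (L ^ 2)⁻¹
      have m2 := min_le_right (L ^ 4 * η') (L ^ 2)⁻¹
      constructor
      · have q1 : L ^ 4 * ∑ p : Fin (j + 1), lam₀ p * (c p) ^ 2 ≤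
            L ^ 4 * (lam₀ j * ∑ p, (c p) ^ 2) := mul_le_mul_of_nonneg_left ha3 (by positivity)
        have q2 : min (L ^ 4 * η') (L ^ 2)⁻¹ * ∑ p : Fin (j + 1), (c p) ^ 2 ≤
            L ^ 4 * η' * ∑ p : Fin (j + 1), (c p) ^ 2 := mul_le_mul_of_nonneg_right m1 hs
        have q3 : L ^ 6 * (lam₀ j + η') * ((L ^ 2)⁻¹ * ∑ p : Fin (j + 1), (c p) ^ 2) =
            L ^ 4 * (lam₀ j * ∑ p : Fin (j + 1), (c p) ^ 2) +
              L ^ 4 * η' * ∑ p : Fin (j + 1), (c p) ^ 2 := by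
          field_simp
        rw [q3]
        linarith
      · exact mul_le_mul_of_nonneg_right m2 hs
  have hlim : Tendsto (fun η' : ℝ => L ^ 6 * (lam₀ j + η')) (𝓝[>] 0) (𝓝 (L ^ 6 * lam₀ j)) := by
    have h2 : Continuous fun η' : ℝ => L ^ 6 * (lam₀ j + η') := by fun_prop
    have h3 := h2.tendsto 0
    rw [add_zero] at h3
    exact h3.mono_left nhdsWithin_le_nhds
  refine ge_of_tendsto hlim ?_
  filter_upwards [self_mem_nhdsWithin] with η' hη'
  exact key η' hη'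

/-- `h` is a tensor field with the bound `2 K` -/
theorem isTn_of_fam (hHb : StHb) {Ω : Type} {D : Data M} {θ : ℝ → Ω → Ω}
    {A : Ω → Fin D.N → ℂ → ℂ →L[ℝ] ℂ} {μ : Ω → Measure M} {h : Ω → Tn D} {K : ℝ}
    (hF : IsFam D θ A μ h K) (o : Ω) : IsTn D (A o) (h o) (2 * K) := by
  refine ⟨hF.symm o, hF.cont o, fun i z hz v => ?_⟩
  refine (hHb K hF.pos (fun s => ‖A (θ s o) i z v‖) (h o i z v v) (fun s => norm_nonneg _) ?_ ?_).trans
    (le_of_eq ?_)
  · intro s t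
    have h1 := hF.lip (θ t o) (s - t) i z hz v
    rw [← hF.add, sub_add_cancel] at h1
    exact h1
  · intro ε hε
    obtain ⟨δ, hδ, h1⟩ := hF.der o ε hε
    refine ⟨δ, hδ, fun τ hτ => ?_⟩
    have h2 := h1 τ hτ i z hz v
    simp only [hF.zero]
    exact h2
  · simp only [hF.zero]

/-- the one-sided derivative -/
theorem der_eig (hHb : StHb) (hLps : StLps) (hUB : StUB) (hSpec : StSpec) (hKf : StKf)
    (hDif : StDif) (hDV : StDV) {Ω : Type} {D : Data M} {θ : ℝ → Ω → Ω}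
    {A : Ω → Fin D.N → ℂ → ℂ →L[ℝ] ℂ} {μ : Ω → Measure M} {h : Ω → Tn D} {K : ℝ}
    (hF : IsFam D θ A μ h K) (u : Ω → ℕ → M → ℝ) (lam : Ω → ℕ → ℝ) (W : Ω → ℕ → M → ℂ)
    (hu : ∀ o, EigBasis (wth D (A o)) (μ o) (u o) (lam o))
    (hW : ∀ o j, IsGrad (wth D (A o)) (μ o) (lam o j) (u o j) (W o j)) (o : Ω) (i j : ℕ)
    (hij : lam o i = lam o j) (hlt : ∀ l, l < i → lam o l < lam o i) (ε : ℝ) (hε : 0 < ε) :
    ∃ δ : ℝ, 0 < δ ∧ ∀ τ : ℝ, |τ| < δ → lam (θ τ o) i ≤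
      lam o i * (1 - kpp D (A o) (μ o) (h o) (lam o j) (u o j) (W o j) * τ) + ε * |τ| := by
  obtain ⟨-, -, a, b, e, hFm, hE, ha, hb, he⟩ := hSpec M (μ o) (wth D (A o)) (hF.surf o)
    inferInstance (u o) (lam o) (hu o) (W o) (hW o)
  have hlam0 : ∀ l, 0 ≤ lam o l := by
    intro l
    have h2 := hFm.na (e l)
    rwa [hE.eig, hE.orth, if_pos rfl, mul_one] at h2
  rcases (hlam0 i).eq_or_lt with hi0 | hi0
  · refine ⟨1, one_pos, fun τ _ => ?_⟩
    have h1 := lip_eig hLps hUB hSpec D (A o) (A (θ τ o)) (μ o) (μ (θ τ o)) (hF.surf o)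
      (hF.surf _) (Real.exp (K * |τ|)) (Real.exp_pos _) (fun l z hz v => ⟨hF.lip o τ l z hz v, by
        have h2 := hF.lip (θ τ o) (-τ) l z hz v
        rw [← hF.add, neg_add_cancel, hF.zero, abs_neg] at h2
        exact h2⟩) (u o) (u (θ τ o)) (lam o) (lam (θ τ o)) (hu o) (hu _) (W o) (hW o) i
    rw [← hi0, mul_zero] at h1
    rw [← hi0, zero_mul, zero_add]
    exact h1.trans (by positivity)
  · have hT := isTn_of_fam hHb hF o
    obtain ⟨ka, kb, ksa, ksb, hkb, hka⟩ := hKf M (μ o) D (A o) (hF.surf o) (h o) (2 * K) hT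
    obtain ⟨δ₁, ε₁, hδ₁, hε₁, hV⟩ := hDV (HF (wth D (A o)) (μ o)) a b hFm e (lam o) hE ka kb ksa
      ksb i j hij hlt hi0 ε hε
    obtain ⟨δ₂, ε₂, hδ₂, hε₂, hD2⟩ := hDif M (μ o) D (A o) (hF.surf o) (h o) (2 * K) hT
      (by have := hF.pos; positivity) ε₁ hε₁
    obtain ⟨δ₃, hδ₃, hD3⟩ := hF.der o ε₂ hε₂
    have hkap : lam o i * kpp D (A o) (μ o) (h o) (lam o j) (u o j) (W o j) =
        lam o i * kb (e j) (e j) - ka (e j) (e j) := by
      have e1 : kb (e j) (e j) = ∫ x, 1 / 2 * trc D (A o) (h o) x * (u o j x) ^ 2 ∂(μ o) := by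
        rw [hkb]
        refine integral_congr_ae ?_
        filter_upwards [(he j).1] with x hx
        rw [hx]
      have e2 : ka (e j) (e j) = - ∫ x, (fld D (A o) (h o) (W o j x) (W o j x) x -
          1 / 2 * trc D (A o) (h o) x * ‖W o j x‖ ^ 2) ∂(μ o) := by
        rw [hka, ← integral_neg]
        refine integral_congr_ae ?_
        filter_upwards [(he j).2] with x hx
        rw [hx]
        ring
      have hne : lam o j ≠ 0 := by
        rw [← hij]
        exact hi0.ne'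
      rw [e1, e2, kpp, hij, mul_add, ← mul_assoc (lam o j) (lam o j)⁻¹, mul_inv_cancel₀ hne,
        one_mul, sub_neg_eq_add]
    refine ⟨min δ₁ (min δ₂ δ₃), lt_min hδ₁ (lt_min hδ₂ hδ₃), fun τ hτ => ?_⟩
    have hτ1 : |τ| < δ₁ := lt_of_lt_of_le hτ (min_le_left _ _)
    have hτ2 : |τ| < δ₂ := lt_of_lt_of_le hτ ((min_le_right _ _).trans (min_le_left _ _))
    have hτ3 : |τ| < δ₃ := lt_of_lt_of_le hτ ((min_le_right _ _).trans (min_le_right _ _))
    by_cases hτ0 : τ = 0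
    · subst hτ0
      rw [hF.zero, mul_zero, abs_zero, mul_zero, sub_zero, mul_one, add_zero]
    obtain ⟨hΛ, f, η, hη, hf⟩ := hV τ (abs_pos.2 hτ0) hτ1
    obtain ⟨hA, -⟩ := hD2 τ hτ2 (A (θ τ o)) (μ (θ τ o)) (hF.surf _) (hD3 τ hτ3)
    have hmain := hUB M (μ o) (μ (θ τ o)) (wth D (A o)) (wth D (A (θ τ o))) (hF.surf o)
      (hF.surf _) inferInstance (fun F hF => hF) (u (θ τ o)) (lam (θ τ o)) (hu _)
      (a + τ • ka + (ε₁ * |τ|) • a) (b + τ • kb - (ε₁ * |τ|) • b) ?_ ?_ ?_ i f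
      (lam o i + τ * (ka (e j) (e j) - lam o i * kb (e j) (e j)) + ε * |τ|) η hΛ hη ?_
    · refine hmain.trans (le_of_eq ?_)
      have : lam o i * (1 - kpp D (A o) (μ o) (h o) (lam o j) (u o j) (W o j) * τ) =
          lam o i - τ * (lam o i * kpp D (A o) (μ o) (h o) (lam o j) (u o j) (W o j)) := by ring
      rw [this, hkap]
      ring
    · intro v w
      simp only [ContinuousLinearMap.add_apply, ContinuousLinearMap.smul_apply, smul_eq_mul]
      rw [hFm.sa v w, ksa v w]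
    · intro v w
      simp only [ContinuousLinearMap.add_apply, ContinuousLinearMap.sub_apply,
        ContinuousLinearMap.smul_apply, smul_eq_mul]
      rw [hFm.sb v w, ksb v w]
    · intro F hFC v hv1 hv2
      obtain ⟨c1, c2⟩ := hA F hFC
      have e1 : a v v = ∫ x, ‖(wth D (A o)).gr F x‖ ^ 2 ∂(μ o) := by
        rw [ha]
        refine integral_congr_ae ?_
        filter_upwards [hv2] with x hx
        rw [hx]
      have e2 : b v v = ∫ x, (F x) ^ 2 ∂(μ o) := by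
        rw [hb]
        refine integral_congr_ae ?_
        filter_upwards [hv1] with x hx
        rw [hx]
      have e3 : ka v v = ∫ x, (1 / 2 * trc D (A o) (h o) x * ‖(wth D (A o)).gr F x‖ ^ 2 -
          fld D (A o) (h o) ((wth D (A o)).gr F x) ((wth D (A o)).gr F x) x) ∂(μ o) := by
        rw [hka]
        refine integral_congr_ae ?_
        filter_upwards [hv2] with x hx
        rw [hx]
      have e4 : kb v v = ∫ x, 1 / 2 * trc D (A o) (h o) x * (F x) ^ 2 ∂(μ o) := by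
        rw [hkb]
        refine integral_congr_ae ?_
        filter_upwards [hv1] with x hx
        rw [hx]
      simp only [ContinuousLinearMap.add_apply, ContinuousLinearMap.sub_apply,
        ContinuousLinearMap.smul_apply, smul_eq_mul]
      rw [e1, e2, e3, e4]
      exact ⟨c1, c2⟩
    · intro c
      obtain ⟨c1, c2⟩ := hf c _ rfl
      simp only [ContinuousLinearMap.add_apply, ContinuousLinearMap.sub_apply,
        ContinuousLinearMap.smul_apply, smul_eq_mul]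
      exact ⟨c1, c2⟩

/-- one parameter -/
theorem one (hHb : StHb) (hLps : StLps) (hUB : StUB) (hSpec : StSpec) (hKf : StKf)
    (hDif : StDif) (hDV : StDV) (hRA : StRA) {Ω : Type} {D : Data M} {θ : ℝ → Ω → Ω}
    {A : Ω → Fin D.N → ℂ → ℂ →L[ℝ] ℂ} {μ : Ω → Measure M} {h : Ω → Tn D} {K : ℝ}
    (hF : IsFam D θ A μ h K) (u : Ω → ℕ → M → ℝ) (lam : Ω → ℕ → ℝ) (W : Ω → ℕ → M → ℂ)
    (hu : ∀ o, EigBasis (wth D (A o)) (μ o) (u o) (lam o))
    (hW : ∀ o j, IsGrad (wth D (A o)) (μ o) (lam o j) (u o j) (W o j)) (o : Ω) :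
    let X : ℕ → Ω → ℝ := fun j o => kpp D (A o) (μ o) (h o) (lam o j) (u o j) (W o j)
    let Y : Ω → ℝ := fun o => (∫ x, 1 / 2 * trc D (A o) (h o) x ∂(μ o)) / (μ o).real univ
    (∀ᵐ t : ℝ, ∀ j, HasDerivAt (fun s => lam (θ s o) j) (-(X j (θ t o) * lam (θ t o) j)) t) ∧
    (∀ t : ℝ, HasDerivAt (fun s => Real.log ((μ (θ s o)).real univ)) (Y (θ t o)) t) ∧
    (∀ χ : ℝ → ℝ, Integrable χ volume →
      Tendsto (fun j => ∫ t, χ t * X j (θ t o)) atTop (𝓝 (∫ t, χ t * Y (θ t o)))) ∧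
    ∀ J : ℕ → ℕ, Tendsto J atTop atTop → ∀ᵐ t : ℝ, ∀ L : ℝ,
      Tendsto (fun k => X (J k) (θ t o)) atTop (𝓝 L) → L = Y (θ t o) := by
  intro X Y
  have hsp := fun o => hSpec M (μ o) (wth D (A o)) (hF.surf o) inferInstance (u o) (lam o) (hu o)
    (W o) (hW o)
  have hpos : ∀ o, 0 < (μ o).real univ := fun o => (hsp o).1
  have hlam0 : ∀ o l, 0 ≤ lam o l := by
    intro o l
    obtain ⟨-, -, a, b, e, hFm, hE, -⟩ := hsp o
    have h2 := hFm.na (e l)
    rwa [hE.eig, hE.orth, if_pos rfl, mul_one] at h2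
  have hboth : ∀ (o : Ω) (τ : ℝ), ∀ i, ∀ z ∈ D.T i, ∀ v,
      ‖A (θ τ o) i z v‖ ≤ Real.exp (K * |τ|) * ‖A o i z v‖ ∧
      ‖A o i z v‖ ≤ Real.exp (K * |τ|) * ‖A (θ τ o) i z v‖ := by
    intro o τ l z hz v
    refine ⟨hF.lip o τ l z hz v, ?_⟩
    have h2 := hF.lip (θ τ o) (-τ) l z hz v
    rw [← hF.add, neg_add_cancel, hF.zero, abs_neg] at h2
    exact h2
  have hst : ∀ s t : ℝ, θ s o = θ (s - t) (θ t o) := by
    intro s t
    rw [← hF.add, sub_add_cancel]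
  have hAr : ∀ t : ℝ, HasDerivAt (fun s => (μ (θ s o)).real univ)
      (∫ x, 1 / 2 * trc D (A (θ t o)) (h (θ t o)) x ∂(μ (θ t o))) t := by
    intro t
    rw [hasDerivAt_iff_isLittleO_nhds_zero, Asymptotics.isLittleO_iff]
    intro c hc
    have hT := isTn_of_fam hHb hF (θ t o)
    set m := (μ (θ t o)).real univ with hm
    have hm0 : 0 < m := hpos _
    obtain ⟨δ₂, ε₂, hδ₂, hε₂, hD2⟩ := hDif M (μ (θ t o)) D (A (θ t o)) (hF.surf _) (h (θ t o))
      (2 * K) hT (by have := hF.pos; positivity) (c / m) (by positivity)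
    obtain ⟨δ₃, hδ₃, hD3⟩ := hF.der (θ t o) ε₂ hε₂
    have hball : Metric.ball (0 : ℝ) (min δ₂ δ₃) ∈ 𝓝 (0 : ℝ) :=
      Metric.ball_mem_nhds _ (lt_min hδ₂ hδ₃)
    filter_upwards [hball] with τ hτ
    rw [Metric.mem_ball, dist_zero_right, Real.norm_eq_abs] at hτ
    obtain ⟨-, hA⟩ := hD2 τ (lt_of_lt_of_le hτ (min_le_left _ _)) (A (θ τ (θ t o)))
      (μ (θ τ (θ t o))) (hF.surf _) (hD3 τ (lt_of_lt_of_le hτ (min_le_right _ _)))
    rw [← hF.add, add_comm τ t] at hA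
    rw [Real.norm_eq_abs, Real.norm_eq_abs, smul_eq_mul]
    refine hA.trans (le_of_eq ?_)
    rw [← hm]
    field_simp
  have hAr' : ∀ t : ℝ, HasDerivAt (fun s => (μ (θ s o)).real univ)
      (Y (θ t o) * (μ (θ t o)).real univ) t := by
    intro t
    have h1 := hAr t
    have e1 : Y (θ t o) * (μ (θ t o)).real univ =
        ∫ x, 1 / 2 * trc D (A (θ t o)) (h (θ t o)) x ∂(μ (θ t o)) :=
      div_mul_cancel₀ _ (hpos _).ne'
    rw [e1]
    exact h1
  have h1 := hRA (fun j t => lam (θ t o) j) (fun j t => X j (θ t o))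
    (fun t => (μ (θ t o)).real univ) (fun t => Y (θ t o)) (6 * K)
    (by have := hF.pos; positivity) (fun j t => hlam0 _ _)
    (fun i j t hij => (hu (θ t o)).mono hij) ?_ ?_ (fun t => hpos _) ?_ hAr'
    (fun t => (hsp (θ t o)).2.1)
  · exact ⟨h1.1, fun t => by
      have h2 := (hAr' t).log (hpos _).ne'
      rwa [mul_div_cancel_right₀ _ (hpos _).ne'] at h2, h1.2.1, h1.2.2⟩
  · intro j s t
    have h2 := lip_eig hLps hUB hSpec D (A (θ t o)) (A (θ (s - t) (θ t o))) (μ (θ t o))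
      (μ (θ (s - t) (θ t o))) (hF.surf _) (hF.surf _) (Real.exp (K * |s - t|)) (Real.exp_pos _)
      (hboth (θ t o) (s - t)) (u (θ t o)) (u (θ (s - t) (θ t o))) (lam (θ t o))
      (lam (θ (s - t) (θ t o))) (hu _) (hu _) (W (θ t o)) (hW _) j
    rw [← hst s t, ← Real.exp_nat_mul] at h2
    refine h2.trans (le_of_eq ?_)
    congr 2
    push_cast
    ring
  · intro i j t hij hlt ε hε
    obtain ⟨δ, hδ, h2⟩ := der_eig hHb hLps hUB hSpec hKf hDif hDV hF u lam W hu hW (θ t o) i j hij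
      hlt ε hε
    refine ⟨δ, hδ, fun τ hτ => ?_⟩
    have h3 := h2 τ hτ
    rw [← hF.add, add_comm τ t] at h3
    exact h3
  · intro s t
    have h2 := (hLps M (μ (θ t o)) (μ (θ (s - t) (θ t o))) D (A (θ t o))
      (A (θ (s - t) (θ t o))) (hF.surf _) (hF.surf _) (Real.exp (K * |s - t|)) (Real.exp_pos _)
      (hboth (θ t o) (s - t))).2
    rw [← hst s t, ← Real.exp_nat_mul] at h2
    refine h2.trans (mul_le_mul_of_nonneg_right (Real.exp_le_exp.2 ?_) (hpos _).le)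
    have h3 : 0 ≤ K * |s - t| := mul_nonneg hF.pos (abs_nonneg _)
    push_cast
    linarith

end

end Pool.Agent.Run7.h408.EF
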